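import Pool.Agent.TH783.CE.Flat

/-!
# Rational arcs through a point, and functions with values in flat sets along them
-/

set_option autoImplicit false
set_option linter.unusedSectionVars false

namespace Pool.Agent.T2h62.QS

open Polynomial

variable {K : Type} [Field K] {n : ℕ}

/-- The point of the arc with the parameter `s`. -/
noncomputable def pt (x : Fin n → K) (y : Fin n → K[X]) (G : K[X]) (s : K) : Fin n → K :=
  fun i => x i + (y i).eval s / G.eval s

/-- There is a rational curve `s ↦ x + y(s) / G(s)` through the point `x` at infinity in the direction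
`τ`, all but finitely many of whose points are in `X`. -/
def Arc (X : Set (Fin n → K)) (x τ : Fin n → K) : Prop :=
  ∃ (y : Fin n → K[X]) (G : K[X]) (m : ℕ), (∀ i, (y i).natDegree ≤ m) ∧
    (∀ i, (y i).coeff m = τ i) ∧ m < G.natDegree ∧ {s | pt x y G s ∉ X}.Finite

/-- the differential of a polynomial at a point -/
noncomputable def dif (x : Fin n → K) (H : MvPolynomial (Fin n) K) (v : Fin n → K) : K :=
  ∑ i, MvPolynomial.eval x (MvPolynomial.pderiv i H) * v i

theorem arc_poly (x : Fin n → K) (y : Fin n → K[X]) (G : K[X]) (m : ℕ)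
    (hy : ∀ i, (y i).natDegree ≤ m) (hm : m < G.natDegree) (H : MvPolynomial (Fin n) K) :
    ∃ (N : ℕ) (R : K[X]), R.natDegree ≤ 2 * m + N * G.natDegree ∧
      ∀ s, G.eval s ≠ 0 → MvPolynomial.eval (pt x y G s) H * G.eval s ^ (N + 2) =
        (C (MvPolynomial.eval x H) * G ^ (N + 2) +
          (∑ i, C (MvPolynomial.eval x (MvPolynomial.pderiv i H)) * y i) * G ^ (N + 1) + R).eval s := by
  -- raising `N`
  have raise : ∀ (H : MvPolynomial (Fin n) K) (N M : ℕ) (R : K[X]),
      R.natDegree ≤ 2 * m + N * G.natDegree →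
      (∀ s, G.eval s ≠ 0 → MvPolynomial.eval (pt x y G s) H * G.eval s ^ (N + 2) =
        (C (MvPolynomial.eval x H) * G ^ (N + 2) +
          (∑ i, C (MvPolynomial.eval x (MvPolynomial.pderiv i H)) * y i) * G ^ (N + 1) + R).eval s) →
      (R * G ^ M).natDegree ≤ 2 * m + (N + M) * G.natDegree ∧
      (∀ s, G.eval s ≠ 0 → MvPolynomial.eval (pt x y G s) H * G.eval s ^ (N + M + 2) =
        (C (MvPolynomial.eval x H) * G ^ (N + M + 2) +
          (∑ i, C (MvPolynomial.eval x (MvPolynomial.pderiv i H)) * y i) * G ^ (N + M + 1) +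
          R * G ^ M).eval s) := by
    intro H N M R hR h
    constructor
    · refine natDegree_mul_le.trans ?_
      have := natDegree_pow_le (p := G) (n := M)
      have h2 : (N + M) * G.natDegree = N * G.natDegree + M * G.natDegree := by ring
      omega
    · intro s hs
      have h1 := h s hs
      simp only [eval_add, eval_mul, eval_pow, eval_C] at h1 ⊢
      have h2 : G.eval s ^ (N + M + 2) = G.eval s ^ (N + 2) * G.eval s ^ M := by
        rw [← pow_add]; congr 1; omega
      have h3 : G.eval s ^ (N + M + 1) = G.eval s ^ (N + 1) * G.eval s ^ M := by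
        rw [← pow_add]; congr 1; omega
      rw [h2, h3, ← mul_assoc, h1]
      ring
  induction H using MvPolynomial.induction_on with
  | C c =>
    refine ⟨0, 0, by simp, fun s hs => ?_⟩
    simp
  | add p q hp hq =>
    obtain ⟨N₁, R₁, hR₁, h₁⟩ := hp
    obtain ⟨N₂, R₂, hR₂, h₂⟩ := hq
    obtain ⟨hR₁', h₁'⟩ := raise p N₁ N₂ R₁ hR₁ h₁
    obtain ⟨hR₂', h₂'⟩ := raise q N₂ N₁ R₂ hR₂ h₂
    refine ⟨N₁ + N₂, R₁ * G ^ N₂ + R₂ * G ^ N₁, ?_, fun s hs => ?_⟩
    · refine (natDegree_add_le _ _).trans (max_le hR₁' ?_)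
      rw [add_comm N₁ N₂]
      exact hR₂'
    · have e1 := h₁' s hs
      have e2 := h₂' s hs
      rw [add_comm N₂ N₁] at e2
      rw [map_add, add_mul, e1, e2]
      simp only [eval_add, eval_mul, eval_pow, eval_C, map_add, add_mul, Finset.sum_add_distrib,
        eval_finsetSum]
      ring
  | mul_X p j hp =>
    obtain ⟨N, R, hR, h⟩ := hp
    refine ⟨N + 1, C (MvPolynomial.eval x p) * 0 +
      (∑ i, C (MvPolynomial.eval x (MvPolynomial.pderiv i p)) * y i) * y j * G ^ (N + 1) +
      R * (C (x j) * G + y j), ?_, fun s hs => ?_⟩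
    · have hS : (∑ i, C (MvPolynomial.eval x (MvPolynomial.pderiv i p)) * y i).natDegree ≤ m :=
        natDegree_sum_le_of_forall_le _ _ fun i _ => (natDegree_C_mul_le _ _).trans (hy i)
      have h1 : (N + 1) * G.natDegree = N * G.natDegree + G.natDegree := by ring
      refine (natDegree_add_le _ _).trans (max_le ((natDegree_add_le _ _).trans
        (max_le (by simp) ?_)) ?_)
      · refine natDegree_mul_le.trans ?_
        have h2 := natDegree_pow_le (p := G) (n := N + 1)
        have h3 := natDegree_mul_le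
          (p := ∑ i, C (MvPolynomial.eval x (MvPolynomial.pderiv i p)) * y i) (q := y j)
        have h4 := hy j
        omega
      · refine natDegree_mul_le.trans ?_
        have h2 : (C (x j) * G + y j).natDegree ≤ G.natDegree :=
          (natDegree_add_le _ _).trans (max_le (natDegree_C_mul_le _ _) ((hy j).trans hm.le))
        omega
    · have e1 := h s hs
      have e2 : (∑ i, C (MvPolynomial.eval x (MvPolynomial.pderiv i (p * MvPolynomial.X j))) * y i) =
          C (x j) * (∑ i, C (MvPolynomial.eval x (MvPolynomial.pderiv i p)) * y i) +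
            C (MvPolynomial.eval x p) * y j := by
        have e3 : ∀ i, MvPolynomial.eval x (MvPolynomial.pderiv i (p * MvPolynomial.X j)) =
            MvPolynomial.eval x (MvPolynomial.pderiv i p) * x j +
              MvPolynomial.eval x p * (if j = i then 1 else 0) := by
          intro i
          rw [MvPolynomial.pderiv_mul, MvPolynomial.pderiv_X, map_add, map_mul, map_mul,
            MvPolynomial.eval_X]
          congr 2
          by_cases hij : j = i
          · subst hij
            simp
          · rw [if_neg hij, Pi.single_eq_of_ne hij, map_zero]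
        simp only [e3, C_add, C_mul, add_mul, Finset.sum_add_distrib]
        congr 1
        · rw [Finset.mul_sum]
          refine Finset.sum_congr rfl fun i _ => ?_
          ring
        · rw [Finset.sum_eq_single j]
          · simp
          · intro i _ hij
            rw [if_neg (Ne.symm hij), C_0, mul_zero, zero_mul]
          · intro hj
            exact absurd (Finset.mem_univ j) hj
      rw [e2, map_mul, MvPolynomial.eval_X, map_mul, MvPolynomial.eval_X]
      have e4 : pt x y G s j * G.eval s = x j * G.eval s + (y j).eval s := by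
        show (x j + (y j).eval s / G.eval s) * G.eval s = _
        field_simp
      have e5 : MvPolynomial.eval (pt x y G s) p * pt x y G s j * G.eval s ^ (N + 1 + 2) =
          (MvPolynomial.eval (pt x y G s) p * G.eval s ^ (N + 2)) * (pt x y G s j * G.eval s) := by
        rw [show N + 1 + 2 = (N + 2) + 1 by ring, pow_succ]
        ring
      rw [e5, e1, e4]
      simp only [eval_add, eval_mul, eval_pow, eval_C, C_mul, mul_zero, zero_add]
      ring

variable [CharZero K]

theorem arc_vanish (x : Fin n → K) (y : Fin n → K[X]) (G : K[X]) (m : ℕ)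
    (hy : ∀ i, (y i).natDegree ≤ m) (hm : m < G.natDegree) (H : MvPolynomial (Fin n) K)
    (hH : {s | MvPolynomial.eval (pt x y G s) H ≠ 0}.Finite) :
    MvPolynomial.eval x H = 0 ∧ dif x H (fun i => (y i).coeff m) = 0 := by
  obtain ⟨N, R, hR, h⟩ := arc_poly x y G m hy hm H
  obtain ⟨S, hS⟩ : ∃ S : K[X], S = ∑ i, C (MvPolynomial.eval x (MvPolynomial.pderiv i H)) * y i :=
    ⟨_, rfl⟩
  rw [← hS] at h
  have hG0 : G ≠ 0 := by
    rintro rfl
    simp at hm
  have hSd : S.natDegree ≤ m := by
    rw [hS]
    exact natDegree_sum_le_of_forall_le _ _ fun i _ => (natDegree_C_mul_le _ _).trans (hy i)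
  have hSc : S.coeff m = dif x H (fun i => (y i).coeff m) := by
    rw [hS, finsetSum_coeff]
    refine Finset.sum_congr rfl fun i _ => ?_
    rw [coeff_C_mul]
  have h0 : C (MvPolynomial.eval x H) * G ^ (N + 2) + S * G ^ (N + 1) + R = 0 := by
    refine Polynomial.eq_zero_of_infinite_isRoot _ ?_
    have h1 := (hH.union (Polynomial.finite_setOfPred_isRoot hG0)).infinite_compl
    refine h1.mono ?_
    intro s hs
    rw [Set.mem_compl_iff, Set.mem_union, not_or] at hs
    have hs1 : MvPolynomial.eval (pt x y G s) H = 0 := by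
      by_contra hne
      exact hs.1 hne
    have hs2 : G.eval s ≠ 0 := fun hz => hs.2 hz
    show (C (MvPolynomial.eval x H) * G ^ (N + 2) + S * G ^ (N + 1) + R).eval s = 0
    rw [← h s hs2, hs1, zero_mul]
  have hexp : (N + 2) * G.natDegree = N * G.natDegree + 2 * G.natDegree := by ring
  have hexp1 : (N + 1) * G.natDegree = N * G.natDegree + G.natDegree := by ring
  have hx : MvPolynomial.eval x H = 0 := by
    have h1 := congrArg (fun p : K[X] => p.coeff ((N + 2) * G.natDegree)) h0
    simp only [coeff_add, coeff_C_mul, coeff_zero] at h1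
    have h2 : (S * G ^ (N + 1)).coeff ((N + 2) * G.natDegree) = 0 := by
      apply coeff_eq_zero_of_natDegree_lt
      refine natDegree_mul_le.trans_lt ?_
      have := natDegree_pow_le (p := G) (n := N + 1)
      omega
    have h3 : R.coeff ((N + 2) * G.natDegree) = 0 := by
      apply coeff_eq_zero_of_natDegree_lt
      omega
    have h4 : (G ^ (N + 2)).coeff ((N + 2) * G.natDegree) ≠ 0 := by
      rw [← natDegree_pow, coeff_natDegree]
      exact leadingCoeff_ne_zero.2 (pow_ne_zero _ hG0)
    rw [h2, h3, add_zero, add_zero] at h1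
    exact (mul_eq_zero.1 h1).resolve_right h4
  refine ⟨hx, ?_⟩
  rw [hx, C_0, zero_mul, zero_add] at h0
  have h1 := congrArg (fun p : K[X] => p.coeff (m + (N + 1) * G.natDegree)) h0
  simp only [coeff_add, coeff_zero] at h1
  have h3 : R.coeff (m + (N + 1) * G.natDegree) = 0 := by
    apply coeff_eq_zero_of_natDegree_lt
    omega
  have h4 : (G ^ (N + 1)).coeff ((N + 1) * G.natDegree) ≠ 0 := by
    rw [← natDegree_pow, coeff_natDegree]
    exact leadingCoeff_ne_zero.2 (pow_ne_zero _ hG0)
  rw [h3, add_zero, coeff_mul_add_eq_of_natDegree_le hSd (by rw [natDegree_pow])] at h1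
  rw [← hSc]
  exact (mul_eq_zero.1 h1).resolve_right h4

/-- A polynomial which does not vanish at the point vanishes at finitely many points of the arc. -/
theorem arc_ne (x : Fin n → K) (y : Fin n → K[X]) (G : K[X]) (m : ℕ)
    (hy : ∀ i, (y i).natDegree ≤ m) (hm : m < G.natDegree) (g : MvPolynomial (Fin n) K)
    (hg : MvPolynomial.eval x g ≠ 0) : {s | MvPolynomial.eval (pt x y G s) g = 0}.Finite := by
  obtain ⟨N, R, -, hR⟩ := arc_poly x y G m hy hm g
  have hG0 : G ≠ 0 := by
    rintro rfl
    simp at hm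
  obtain ⟨S, hS⟩ : ∃ S : Polynomial K, ∀ s, G.eval s ≠ 0 →
      MvPolynomial.eval (pt x y G s) g * G.eval s ^ (N + 2) = S.eval s := ⟨_, hR⟩
  have hGfin : {s | G.eval s = 0}.Finite := Polynomial.finite_setOfPred_isRoot hG0
  have hS0 : S ≠ 0 := by
    rintro rfl
    apply hg
    refine (arc_vanish x y G m hy hm g (hGfin.subset ?_)).1
    intro s hs
    by_contra hne
    have h1 := hS s hne
    rw [Polynomial.eval_zero] at h1
    exact hs ((mul_eq_zero.1 h1).resolve_right (pow_ne_zero _ hne))
  refine (hGfin.union (Polynomial.finite_setOfPred_isRoot hS0)).subset ?_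
  intro s hs
  by_cases hG : G.eval s = 0
  · exact Or.inl hG
  · right
    show S.eval s = 0
    have hs' : MvPolynomial.eval (pt x y G s) g = 0 := hs
    rw [← hS s hG, hs', zero_mul]

/-- A rational function with values in a flat set is constant along an arc. -/
theorem arc_flat {O : Set K} (hO : Pool.Agent.TH783.CE.Flat O) (x : Fin n → K) (y : Fin n → K[X])
    (G : K[X]) (m : ℕ) (hy : ∀ i, (y i).natDegree ≤ m) (hm : m < G.natDegree)
    (p q : MvPolynomial (Fin n) K) (hq : MvPolynomial.eval x q ≠ 0)
    (h : {s | ¬ (MvPolynomial.eval (pt x y G s) q ≠ 0 → MvPolynomial.eval (pt x y G s) p /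
      MvPolynomial.eval (pt x y G s) q ∈ O)}.Finite) :
    dif x (p - MvPolynomial.C (MvPolynomial.eval x p / MvPolynomial.eval x q) * q)
      (fun i => (y i).coeff m) = 0 := by
  obtain ⟨Np, Rp, -, hp'⟩ := arc_poly x y G m hy hm p
  obtain ⟨Nq, Rq, -, hq'⟩ := arc_poly x y G m hy hm q
  obtain ⟨P, hP⟩ : ∃ P : K[X], ∀ s, G.eval s ≠ 0 →
      P.eval s = MvPolynomial.eval (pt x y G s) p * G.eval s ^ (Np + 2 + (Nq + 2)) := by
    refine ⟨(C (MvPolynomial.eval x p) * G ^ (Np + 2) + (∑ i, C (MvPolynomial.eval x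
      (MvPolynomial.pderiv i p)) * y i) * G ^ (Np + 1) + Rp) * G ^ (Nq + 2), fun s hs => ?_⟩
    rw [eval_mul, ← hp' s hs, eval_pow, pow_add (G.eval s) (Np + 2), mul_assoc]
  obtain ⟨Q, hQ⟩ : ∃ Q : K[X], ∀ s, G.eval s ≠ 0 →
      Q.eval s = MvPolynomial.eval (pt x y G s) q * G.eval s ^ (Np + 2 + (Nq + 2)) := by
    refine ⟨(C (MvPolynomial.eval x q) * G ^ (Nq + 2) + (∑ i, C (MvPolynomial.eval x
      (MvPolynomial.pderiv i q)) * y i) * G ^ (Nq + 1) + Rq) * G ^ (Np + 2), fun s hs => ?_⟩
    rw [eval_mul, ← hq' s hs, eval_pow, add_comm (Np + 2), pow_add (G.eval s) (Nq + 2), mul_assoc]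
  have hG0 : G ≠ 0 := by
    rintro rfl
    simp at hm
  have hGfin : {s | G.eval s = 0}.Finite := Polynomial.finite_setOfPred_isRoot hG0
  have hQ0 : Q ≠ 0 := by
    rintro rfl
    apply hq
    refine (arc_vanish x y G m hy hm q (hGfin.subset ?_)).1
    intro s hs
    by_contra hne
    have h1 := hQ s hne
    rw [eval_zero] at h1
    exact hs ((mul_eq_zero.1 h1.symm).resolve_right (pow_ne_zero _ hne))
  let e : K[X] := ∏ a ∈ h.toFinset, (X - C a)
  have he0 : e ≠ 0 := Finset.prod_ne_zero_iff.2 fun a _ => X_sub_C_ne_zero a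
  have he : ∀ s, e.eval s ≠ 0 → (MvPolynomial.eval (pt x y G s) q ≠ 0 →
      MvPolynomial.eval (pt x y G s) p / MvPolynomial.eval (pt x y G s) q ∈ O) := by
    intro s hs
    by_contra hcon
    apply hs
    rw [eval_prod]
    refine Finset.prod_eq_zero (h.mem_toFinset.2 hcon) (by simp)
  obtain ⟨c, hc⟩ := hO (Q * (G * e)) (P * (G * e)) (mul_ne_zero hQ0 (mul_ne_zero hG0 he0)) (by
    intro s hs
    rw [eval_mul, eval_mul] at hs
    have h1 : Q.eval s ≠ 0 := left_ne_zero_of_mul hs
    have h2 : G.eval s ≠ 0 := left_ne_zero_of_mul (right_ne_zero_of_mul hs)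
    have h3 : e.eval s ≠ 0 := right_ne_zero_of_mul (right_ne_zero_of_mul hs)
    have h4 : (P * (G * e)).eval s / (Q * (G * e)).eval s = P.eval s / Q.eval s := by
      simp only [eval_mul]
      exact mul_div_mul_right _ _ (mul_ne_zero h2 h3)
    rw [h4, hP s h2, hQ s h2, mul_div_mul_right _ _ (pow_ne_zero _ h2)]
    refine he s h3 ?_
    rw [hQ s h2] at h1
    exact left_ne_zero_of_mul h1)
  have hPQ : P = C c * Q := by
    rw [← mul_assoc (C c)] at hc
    exact mul_right_cancel₀ (mul_ne_zero hG0 he0) hc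
  have hfin : {s | MvPolynomial.eval (pt x y G s) (p - MvPolynomial.C c * q) ≠ 0}.Finite := by
    refine hGfin.subset ?_
    intro s hs
    by_contra hne
    apply hs
    have h1 := hP s hne
    rw [hPQ, eval_mul, eval_C, hQ s hne, ← mul_assoc] at h1
    have h2 := mul_right_cancel₀ (pow_ne_zero _ hne) h1
    rw [map_sub, map_mul, MvPolynomial.eval_C, h2, sub_self]
  obtain ⟨h1, h2⟩ := arc_vanish x y G m hy hm _ hfin
  have h3 : c = MvPolynomial.eval x p / MvPolynomial.eval x q := by
    rw [map_sub, map_mul, MvPolynomial.eval_C, sub_eq_zero] at h1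
    rw [h1, mul_div_cancel_right₀ _ hq]
  rw [← h3]
  exact h2

end Pool.Agent.T2h62.QS
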