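import Mathlib

/-!
# Chains of vectors for systems of quadratic forms of large rank
-/

set_option autoImplicit false

namespace Pool.Agent.T2h62.QS

open Polynomial Module

section li

variable {K W : Type} [Field K] [AddCommGroup W] [Module K W]

/-- linear independence is an open condition on a line -/
theorem li_cofinite {ι : Type} [Fintype ι] (a b : ι → W) (ha : LinearIndependent K a) :
    {t : K | ¬ LinearIndependent K (fun i => a i + t • b i)}.Finite := by
  classical
  obtain ⟨π, hπ⟩ := LinearMap.exists_leftInverse_of_injective (Fintype.linearCombination K a)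
    (LinearMap.ker_eq_bot.2 (linearIndependent_iff_injective_fintypeLinearCombination.1 ha))
  have hπa : ∀ i, π (a i) = Pi.single i 1 := by
    intro i
    have h1 := LinearMap.congr_fun hπ (Pi.single i (1 : K))
    simpa [Fintype.linearCombination_apply_single] using h1
  let M : Matrix ι ι K := Matrix.of fun i j => π (b j) i
  let P : K[X] := (1 + (X : K[X]) • M.map C).det
  have hP : ∀ t : K, P.eval t = (1 + t • M).det := by
    intro t
    show (evalRingHom t) P = _
    rw [RingHom.map_det]
    congr 1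
    ext i j
    by_cases hij : i = j
    · simp [hij]
      ring
    · simp [hij]
      ring
  have hP0 : P ≠ 0 := by
    intro h0
    have h1 := hP 0
    rw [h0] at h1
    simp at h1
  refine (Polynomial.finite_setOfPred_isRoot hP0).subset ?_
  intro t ht
  show P.eval t = 0
  by_contra hne
  apply ht
  rw [hP] at hne
  rw [Fintype.linearIndependent_iff]
  intro g hg
  have h2 : (1 + t • M).mulVec g = 0 := by
    have h3 := congrArg π hg
    rw [map_sum, map_zero] at h3
    simp only [map_smul, map_add, hπa] at h3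
    rw [← h3]
    ext i
    simp only [Matrix.mulVec, dotProduct, Matrix.add_apply, Matrix.smul_apply, smul_eq_mul,
      Finset.sum_apply, Pi.smul_apply, Pi.add_apply]
    refine Finset.sum_congr rfl fun j _ => ?_
    by_cases hij : i = j
    · subst hij
      simp [M]
      ring
    · simp [hij, M]
      ring
  have h4 := Matrix.eq_zero_of_mulVec_eq_zero hne h2
  exact fun i => congrFun h4 i

/-- at a point where the rank of a pencil is maximal the kernel is mapped to the image -/
theorem ker_to_range [Infinite K] {U : Type} [AddCommGroup U] [Module K U] [FiniteDimensional K W]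
    (T₀ T₁ : U →ₗ[K] W)
    (hmax : ∀ t : K, finrank K (LinearMap.range (T₀ + t • T₁)) ≤ finrank K (LinearMap.range T₀))
    (u : U) (hu : T₀ u = 0) : T₁ u ∈ LinearMap.range T₀ := by
  by_contra hcon
  obtain ⟨r, hr⟩ : ∃ r, finrank K (LinearMap.range T₀) = r := ⟨_, rfl⟩
  let b := finBasisOfFinrankEq K (LinearMap.range T₀) hr
  choose x hx using fun i => (b i).2
  let a : Option (Fin r) → W := fun o => o.elim (T₁ u) fun i => (b i : W)
  let c : Option (Fin r) → W := fun o => o.elim 0 fun i => T₁ (x i)
  have hli : LinearIndependent K (fun i => (b i : W)) := by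
    have := b.linearIndependent.map' (LinearMap.range T₀).subtype (Submodule.ker_subtype _)
    exact this
  have hspan : Submodule.span K (Set.range fun i => (b i : W)) = LinearMap.range T₀ := by
    have h1 := b.span_eq
    have h2 := congrArg (Submodule.map (LinearMap.range T₀).subtype) h1
    rw [Submodule.map_span, Submodule.map_top, Submodule.range_subtype] at h2
    refine Eq.trans ?_ h2
    congr 1
    ext y
    simp
  have ha : LinearIndependent K a := by
    rw [linearIndependent_option]
    refine ⟨hli, ?_⟩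
    show T₁ u ∉ Submodule.span K (Set.range fun i => (b i : W))
    rw [hspan]
    exact hcon
  obtain ⟨t, ht⟩ := ((li_cofinite a c ha).insert 0).exists_notMem
  have ht0 : t ≠ 0 := fun h => ht (Set.mem_insert_iff.2 (Or.inl h))
  have hti : LinearIndependent K (fun i => a i + t • c i) := by
    by_contra h
    exact ht (Set.mem_insert_iff.2 (Or.inr h))
  let X : Option (Fin r) → U := fun o => o.elim (t⁻¹ • u) x
  have hX : ∀ o, a o + t • c o = (T₀ + t • T₁) (X o) := by
    intro o
    cases o with
    | none =>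
      show T₁ u + t • (0 : W) = (T₀ + t • T₁) (t⁻¹ • u)
      rw [smul_zero, add_zero, LinearMap.add_apply, LinearMap.smul_apply, map_smul, map_smul, hu,
        smul_zero, zero_add, smul_smul, mul_inv_cancel₀ ht0, one_smul]
    | some i =>
      show (b i : W) + t • T₁ (x i) = (T₀ + t • T₁) (x i)
      rw [← hx i, LinearMap.add_apply, LinearMap.smul_apply]
  have h3 : LinearIndependent K (fun o => (T₀ + t • T₁).rangeRestrict (X o)) := by
    refine LinearIndependent.of_comp (LinearMap.range (T₀ + t • T₁)).subtype ?_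
    have : (fun i => a i + t • c i) =
        (LinearMap.range (T₀ + t • T₁)).subtype ∘ fun o => (T₀ + t • T₁).rangeRestrict (X o) := by
      funext o
      rw [hX o]
      rfl
    rw [← this]
    exact hti
  have h4 := h3.fintype_card_le_finrank
  have h5 := hmax t
  rw [hr] at h5
  rw [Fintype.card_option, Fintype.card_fin] at h4
  omega

end li

section forms

set_option linter.unusedSectionVars false

variable {K V W : Type} [Field K] [AddCommGroup V] [Module K V] [FiniteDimensional K V]
  [AddCommGroup W] [Module K W] [FiniteDimensional K W]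

theorem rank_le (β : V →ₗ[K] V →ₗ[K] K) (U₁ U₂ : Submodule K V)
    (h : ∀ u₁ ∈ U₁, ∀ u₂ ∈ U₂, β u₁ u₂ = 0) :
    finrank K (LinearMap.range β) ≤ finrank K (V ⧸ U₁) + finrank K (V ⧸ U₂) := by
  have h1 := LinearMap.finrank_range_add_finrank_ker β
  have h2 := Submodule.finrank_quotient_add_finrank U₁
  have h3 := Submodule.finrank_quotient_add_finrank U₂
  have h4 := LinearMap.finrank_range_add_finrank_ker (β.domRestrict U₁)
  have h5 : finrank K (LinearMap.range (β.domRestrict U₁)) ≤
      finrank K (U₂.dualAnnihilator) := by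
    refine Submodule.finrank_mono ?_
    rintro _ ⟨u, rfl⟩
    rw [Submodule.mem_dualAnnihilator]
    exact fun w hw => h u u.2 w hw
  have h6 := Subspace.finrank_add_finrank_dualAnnihilator_eq U₂
  have h7 : finrank K (LinearMap.ker (β.domRestrict U₁)) ≤ finrank K (LinearMap.ker β) := by
    have h8 : (LinearMap.ker (β.domRestrict U₁)).map U₁.subtype ≤ LinearMap.ker β := by
      rintro _ ⟨u, hu, rfl⟩
      exact hu
    rw [← Submodule.finrank_map_subtype_eq U₁ (LinearMap.ker (β.domRestrict U₁))]
    exact Submodule.finrank_mono h8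
  have h9 : finrank K (Dual K V) = finrank K V := Subspace.dual_finrank_eq
  omega

/-- the rank of the form `φ ∘ B` -/
noncomputable def rk (B : V →ₗ[K] V →ₗ[K] W) (φ : Dual K W) : ℕ :=
  finrank K (LinearMap.range (B.compr₂ φ))

/-- `w` is in `U`, `B w w` is not in `E`, and `B w : U → W / E` is surjective -/
def Good (B : V →ₗ[K] V →ₗ[K] W) (U : Submodule K V) (E : Submodule K W) (w : V) : Prop :=
  w ∈ U ∧ B w w ∉ E ∧ ∀ z : W, ∃ u ∈ U, B w u - z ∈ E

variable [CharZero K]

theorem exists_surj (B : V →ₗ[K] V →ₗ[K] W) (U : Submodule K V) (E : Submodule K W)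
    (hB : ∀ φ : Dual K W, φ ≠ 0 → (∀ e ∈ E, φ e = 0) →
      2 * finrank K (V ⧸ U) + finrank K (W ⧸ E) ≤ rk B φ) :
    ∃ w ∈ U, ∀ z : W, ∃ u ∈ U, B w u - z ∈ E := by
  let T : V → (U →ₗ[K] (W ⧸ E)) := fun w => (E.mkQ ∘ₗ B w) ∘ₗ U.subtype
  have hT : ∀ w (u : U), T w u = E.mkQ (B w u) := fun w u => rfl
  obtain ⟨w, hwU, hw⟩ : ∃ w ∈ U, ∀ w' ∈ U, finrank K (LinearMap.range (T w')) ≤
      finrank K (LinearMap.range (T w)) := by
    let S : Set ℕ := {m | ∃ w ∈ U, finrank K (LinearMap.range (T w)) = m}
    have hS : S.Nonempty := ⟨_, 0, U.zero_mem, rfl⟩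
    have hb : BddAbove S := ⟨finrank K (W ⧸ E), by
      rintro _ ⟨w, -, rfl⟩
      exact Submodule.finrank_le _⟩
    obtain ⟨w, hwU, hw⟩ := Nat.sSup_mem hS hb
    refine ⟨w, hwU, fun w' hw' => ?_⟩
    rw [hw]
    exact le_csSup hb ⟨w', hw', rfl⟩
  by_cases htop : LinearMap.range (T w) = ⊤
  · refine ⟨w, hwU, fun z => ?_⟩
    have h1 : E.mkQ z ∈ LinearMap.range (T w) := by rw [htop]; trivial
    obtain ⟨u, hu⟩ := h1
    refine ⟨u, u.2, ?_⟩
    rw [hT] at hu
    rw [← Submodule.Quotient.mk_eq_zero, Submodule.Quotient.mk_sub, sub_eq_zero]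
    exact hu
  exfalso
  obtain ⟨φ', hφ', hR⟩ := Submodule.exists_le_ker_of_lt_top _ (lt_top_iff_ne_top.2 htop)
  let φ : Dual K W := φ' ∘ₗ E.mkQ
  have hφ : φ ≠ 0 := by
    intro h0
    apply hφ'
    ext z
    exact LinearMap.congr_fun h0 z
  have hφE : ∀ e ∈ E, φ e = 0 := by
    intro e he
    show φ' (E.mkQ e) = 0
    rw [Submodule.mkQ_apply, (Submodule.Quotient.mk_eq_zero E).2 he, map_zero]
  let U₂ : Submodule K V := (LinearMap.ker (T w)).map U.subtype
  have hvan : ∀ u₁ ∈ U, ∀ u₂ ∈ U₂, (B.compr₂ φ) u₁ u₂ = 0 := by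
    rintro u₁ hu₁ _ ⟨u₂, hu₂, rfl⟩
    have h2 : T u₁ u₂ ∈ LinearMap.range (T w) := by
      refine ker_to_range (T w) (T u₁) (fun t => ?_) u₂ hu₂
      have h3 : T w + t • T u₁ = T (w + t • u₁) := by
        ext x
        simp [hT]
      rw [h3]
      exact hw _ (U.add_mem hwU (U.smul_mem t hu₁))
    have h3 : φ' (T u₁ u₂) = 0 := hR h2
    exact h3
  have h1 := rank_le (B.compr₂ φ) U U₂ hvan
  have h2 := hB φ hφ hφE
  have h3 := Submodule.finrank_quotient_add_finrank U
  have h4 := Submodule.finrank_quotient_add_finrank U₂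
  have h5 : finrank K U₂ = finrank K (LinearMap.ker (T w)) :=
    Submodule.finrank_map_subtype_eq U (LinearMap.ker (T w))
  have h6 := LinearMap.finrank_range_add_finrank_ker (T w)
  have h7 : finrank K (LinearMap.range (T w)) < finrank K (W ⧸ E) :=
    Submodule.finrank_lt htop
  unfold rk at h2
  omega

/-- surjectivity is an open condition on a line -/
theorem surj_cofinite (B : V →ₗ[K] V →ₗ[K] W) (U : Submodule K V) (E : Submodule K W) (w v : V)
    (hw : ∀ z : W, ∃ u ∈ U, B w u - z ∈ E) :
    {t : K | ¬ ∀ z : W, ∃ u ∈ U, B (w + t • v) u - z ∈ E}.Finite := by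
  obtain ⟨r, hr⟩ : ∃ r, finrank K (W ⧸ E) = r := ⟨_, rfl⟩
  let b := finBasisOfFinrankEq K (W ⧸ E) hr
  choose z hz using fun i => E.mkQ_surjective (b i)
  choose u huU hu using fun i => hw (z i)
  have h1 : ∀ i, E.mkQ (B w (u i)) = b i := by
    intro i
    rw [← hz i, ← sub_eq_zero, ← map_sub]
    exact (Submodule.Quotient.mk_eq_zero E).2 (hu i)
  refine (li_cofinite (fun i => E.mkQ (B w (u i))) (fun i => E.mkQ (B v (u i))) (by
    simp only [h1]
    exact b.linearIndependent)).subset ?_
  intro t ht hli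
  apply ht
  intro z'
  have h2 : Submodule.span K (Set.range fun i => E.mkQ (B w (u i)) + t • E.mkQ (B v (u i))) = ⊤ :=
    hli.span_eq_top_of_card_eq_finrank' (by rw [Fintype.card_fin, hr])
  have h3 : E.mkQ z' ∈ Submodule.span K
      (Set.range fun i => E.mkQ (B w (u i)) + t • E.mkQ (B v (u i))) := by
    rw [h2]; trivial
  rw [Submodule.mem_span_range_iff_exists_fun] at h3
  obtain ⟨c, hc⟩ := h3
  refine ⟨∑ i, c i • u i, U.sum_mem fun i _ => U.smul_mem _ (huU i), ?_⟩
  rw [← Submodule.Quotient.mk_eq_zero, ← Submodule.mkQ_apply, map_sub, sub_eq_zero, ← hc]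
  simp only [map_sum, map_smul, map_add, LinearMap.add_apply, LinearMap.smul_apply]

/-- not being in `E` is an open condition on a line -/
theorem sq_cofinite (B : V →ₗ[K] V →ₗ[K] W) (E : Submodule K W) (w v : V)
    (h : B w w ∉ E ∨ B v v ∉ E) : {t : K | B (w + t • v) (w + t • v) ∈ E}.Finite := by
  obtain ⟨φ, h1, hE⟩ : ∃ φ : Dual K W, (φ (B w w) ≠ 0 ∨ φ (B v v) ≠ 0) ∧ ∀ e ∈ E, φ e = 0 := by
    rcases h with h | h
    · obtain ⟨φ, h1, h2⟩ := Submodule.exists_le_ker_of_notMem h
      exact ⟨φ, Or.inl h1, fun e he => h2 he⟩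
    · obtain ⟨φ, h1, h2⟩ := Submodule.exists_le_ker_of_notMem h
      exact ⟨φ, Or.inr h1, fun e he => h2 he⟩
  let P : K[X] := C (φ (B w w)) + C (φ (B w v) + φ (B v w)) * X + C (φ (B v v)) * X ^ 2
  have hP : P ≠ 0 := by
    intro h0
    rcases h1 with h1 | h1
    · apply h1
      have := congrArg (fun p : K[X] => p.coeff 0) h0
      simpa [P] using this
    · apply h1
      have := congrArg (fun p : K[X] => p.coeff 2) h0
      simpa [P, coeff_X, coeff_C] using this
  refine (Polynomial.finite_setOfPred_isRoot hP).subset ?_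
  intro t ht
  show P.eval t = 0
  have h2 := hE _ ht
  simp only [map_add, map_smul, LinearMap.add_apply, LinearMap.smul_apply, smul_eq_mul] at h2
  simp only [P, eval_add, eval_mul, eval_C, eval_X, eval_pow]
  linear_combination h2

theorem Good.open (B : V →ₗ[K] V →ₗ[K] W) {U : Submodule K V} {E : Submodule K W} {w : V}
    (hw : Good B U E w) (v : V) (hv : v ∈ U) : {t : K | ¬ Good B U E (w + t • v)}.Finite := by
  refine ((surj_cofinite B U E w v hw.2.2).union (sq_cofinite B E w v (Or.inl hw.2.1))).subset ?_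
  intro t ht
  by_contra hcon
  rw [Set.mem_union, not_or] at hcon
  apply ht
  exact ⟨U.add_mem hw.1 (U.smul_mem t hv), hcon.2, by
    have := hcon.1
    simpa using this⟩

theorem exists_good (B : V →ₗ[K] V →ₗ[K] W) (hs : ∀ x y, B x y = B y x) (U : Submodule K V)
    (E : Submodule K W) (hE : 1 ≤ finrank K (W ⧸ E))
    (hB : ∀ φ : Dual K W, φ ≠ 0 → (∀ e ∈ E, φ e = 0) →
      2 * finrank K (V ⧸ U) + finrank K (W ⧸ E) ≤ rk B φ) : ∃ w, Good B U E w := by
  obtain ⟨w, hwU, hw⟩ := exists_surj B U E hB
  obtain ⟨v, hvU, hv⟩ : ∃ v ∈ U, B v v ∉ E := by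
    by_contra hcon
    push Not at hcon
    have h1 : ∀ u ∈ U, ∀ v ∈ U, B u v ∈ E := by
      intro u hu v hv
      have h2 := hcon _ (U.add_mem hu hv)
      have h3 : B u v = (2⁻¹ : K) • (B (u + v) (u + v) - B u u - B v v) := by
        simp only [map_add, LinearMap.add_apply]
        rw [hs v u]
        have : B u u + B u v + (B u v + B v v) - B u u - B v v = (2 : K) • B u v := by
          rw [two_smul]
          abel
        rw [this, smul_smul, inv_mul_cancel₀ two_ne_zero, one_smul]
      rw [h3]
      exact E.smul_mem _ (E.sub_mem (E.sub_mem h2 (hcon u hu)) (hcon v hv))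
    have hne : E ≠ ⊤ := by
      rintro rfl
      have : finrank K (W ⧸ (⊤ : Submodule K W)) = 0 := by
        have h9 := Submodule.finrank_quotient_add_finrank (⊤ : Submodule K W)
        rw [finrank_top] at h9
        omega
      omega
    obtain ⟨φ, hφ, hφE⟩ := Submodule.exists_le_ker_of_lt_top _ (lt_top_iff_ne_top.2 hne)
    have h4 := hB φ hφ fun e he => hφE he
    have h5 := rank_le (B.compr₂ φ) U U fun u hu v hv => hφE (h1 u hu v hv)
    unfold rk at h4
    omega
  obtain ⟨t, ht⟩ := ((surj_cofinite B U E w v hw).union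
    (sq_cofinite B E w v (Or.inr hv))).exists_notMem
  rw [Set.mem_union, not_or] at ht
  exact ⟨w + t • v, U.add_mem hwU (U.smul_mem t hvU), ht.2, by
    have := ht.1
    simpa using this⟩

end forms

end Pool.Agent.T2h62.QS
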