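import Pool.Agent.T2h62.QS.Chain

/-!
# The curve defined by a chain
-/

set_option autoImplicit false
set_option linter.unusedSectionVars false

namespace Pool.Agent.T2h62.QS

open Polynomial Module

variable {K W : Type} [Field K] [AddCommGroup W] [Module K W] {n : ℕ}

/-- the value of a vector of polynomials -/
def ev (y : Fin n → K[X]) (s : K) : Fin n → K := fun i => (y i).eval s

theorem bil_expand (β : (Fin n → K) →ₗ[K] (Fin n → K) →ₗ[K] K) (v w : Fin n → K) :
    β v w = ∑ i, ∑ j, β (Pi.single i 1) (Pi.single j 1) * (v i * w j) := by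
  rw [LinearMap.pi_apply_eq_sum_univ β v, LinearMap.sum_apply]
  refine Finset.sum_congr rfl fun i _ => ?_
  rw [LinearMap.smul_apply, LinearMap.pi_apply_eq_sum_univ (β (fun j => if i = j then 1 else 0)) w,
    Finset.smul_sum]
  refine Finset.sum_congr rfl fun j _ => ?_
  have h1 : ∀ i : Fin n, (fun j => if i = j then (1 : K) else 0) = Pi.single i 1 := by
    intro i
    funext j
    by_cases h : j = i
    · subst h; simp
    · simp [h, Ne.symm h]
  rw [h1, h1, smul_eq_mul, smul_eq_mul]
  ring

theorem form_poly (β : (Fin n → K) →ₗ[K] (Fin n → K) →ₗ[K] K) (y : Fin n → K[X]) (m : ℕ)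
    (hy : ∀ i, (y i).natDegree ≤ m) :
    ∃ G : K[X], (∀ s, G.eval s = β (ev y s) (ev y s)) ∧ G.natDegree ≤ 2 * m ∧
      G.coeff (2 * m) = β (fun i => (y i).coeff m) (fun i => (y i).coeff m) := by
  refine ⟨∑ i, ∑ j, C (β (Pi.single i 1) (Pi.single j 1)) * (y i * y j), fun s => ?_, ?_, ?_⟩
  · rw [bil_expand, eval_finsetSum]
    refine Finset.sum_congr rfl fun i _ => ?_
    rw [eval_finsetSum]
    refine Finset.sum_congr rfl fun j _ => ?_
    rw [eval_mul, eval_mul, eval_C]
    rfl
  · refine natDegree_sum_le_of_forall_le _ _ fun i _ => natDegree_sum_le_of_forall_le _ _ fun j _ => ?_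
    refine (natDegree_C_mul_le _ _).trans (natDegree_mul_le.trans ?_)
    have := hy i
    have := hy j
    omega
  · rw [bil_expand, finsetSum_coeff]
    refine Finset.sum_congr rfl fun i _ => ?_
    rw [finsetSum_coeff]
    refine Finset.sum_congr rfl fun j _ => ?_
    rw [coeff_C_mul, two_mul, coeff_mul_add_eq_of_natDegree_le (hy i) (hy j)]

variable [CharZero K] [FiniteDimensional K W]

theorem finrank_quot_sup {E : Submodule K W} {e : W} (he : e ∉ E) :
    finrank K (W ⧸ (E ⊔ Submodule.span K {e})) + 1 = finrank K (W ⧸ E) := by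
  have h1 := Submodule.finrank_sup_span_singleton he
  have h2 := Submodule.finrank_quotient_add_finrank E
  have h3 := Submodule.finrank_quotient_add_finrank (E ⊔ Submodule.span K {e})
  omega

theorem chain (B : (Fin n → K) →ₗ[K] (Fin n → K) →ₗ[K] W) (hs : ∀ x y, B x y = B y x) :
    ∀ (r : ℕ) (U : Submodule K (Fin n → K)) (E : Submodule K W), finrank K (W ⧸ E) = r + 1 →
    (∀ φ : Dual K W, φ ≠ 0 → (∀ e ∈ E, φ e = 0) →
      2 * finrank K ((Fin n → K) ⧸ U) + (r + 1) * r < rk B φ) →
    ∀ w, Good B U E w → ∀ v : Fin n → K, ∃ (y : Fin n → K[X]) (κ : K), κ ≠ 0 ∧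
      (∀ i, (y i).natDegree ≤ 2 ^ r) ∧ (∀ i, (y i).coeff (2 ^ r) = κ * w i) ∧
      (∀ s, ev y s + v ∈ U) ∧ ∀ s, B (ev y s) (ev y s) ∈ E ⊔ Submodule.span K {B w w} := by
  intro r
  induction r with
  | zero =>
    intro U E hE _ w hw v
    refine ⟨fun i => C (-v i) + C (-w i) * X, -1, by simp, fun i => ?_, fun i => ?_, fun s => ?_,
      fun s => ?_⟩
    · rw [pow_zero]
      refine (natDegree_add_le _ _).trans (max_le (by simp) ?_)
      refine natDegree_mul_le.trans ?_
      rw [natDegree_C, natDegree_X]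
      norm_num
    · simp [coeff_C, coeff_X]
    · have : ev (fun i => C (-v i) + C (-w i) * X) s + v = (-s) • w := by
        funext i
        simp [ev]
        ring
      rw [this]
      exact U.smul_mem _ hw.1
    · have h1 := finrank_quot_sup hw.2.1
      have h2 : E ⊔ Submodule.span K {B w w} = ⊤ := by
        have h3 := Submodule.finrank_quotient_add_finrank (E ⊔ Submodule.span K {B w w})
        refine Submodule.eq_top_of_finrank_eq ?_
        omega
      rw [h2]
      trivial
  | succ r ih =>
    intro U E hE hB w hw v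
    obtain ⟨hwU, hwE, hsurj⟩ := hw
    let E' := E ⊔ Submodule.span K {B w w}
    have hEE' : E ≤ E' := le_sup_left
    have hE' : finrank K (W ⧸ E') = r + 1 := by
      have := finrank_quot_sup hwE
      show finrank K (W ⧸ (E ⊔ Submodule.span K {B w w})) = r + 1
      omega
    let U' : Submodule K (Fin n → K) := U ⊓ E'.comap (B w)
    have hU' : finrank K ((Fin n → K) ⧸ U') = finrank K ((Fin n → K) ⧸ U) + (r + 1) := by
      let T : U →ₗ[K] (W ⧸ E') := (E'.mkQ ∘ₗ B w) ∘ₗ U.subtype
      have hTs : LinearMap.range T = ⊤ := by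
        rw [eq_top_iff]
        rintro z -
        obtain ⟨z, rfl⟩ := E'.mkQ_surjective z
        obtain ⟨u, hu, h1⟩ := hsurj z
        refine ⟨⟨u, hu⟩, ?_⟩
        show E'.mkQ (B w u) = E'.mkQ z
        rw [← sub_eq_zero, ← map_sub]
        exact (Submodule.Quotient.mk_eq_zero E').2 (hEE' h1)
      have hTk : (LinearMap.ker T).map U.subtype = U' := by
        ext u
        constructor
        · rintro ⟨u, hu, rfl⟩
          exact ⟨u.2, (Submodule.Quotient.mk_eq_zero E').1 hu⟩
        · rintro ⟨hu, hu2⟩
          exact ⟨⟨u, hu⟩, (Submodule.Quotient.mk_eq_zero E').2 hu2, rfl⟩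
      have h1 := LinearMap.finrank_range_add_finrank_ker T
      have h2 : finrank K U' = finrank K (LinearMap.ker T) := by
        rw [← hTk]
        exact Submodule.finrank_map_subtype_eq U (LinearMap.ker T)
      have h3 := Submodule.finrank_quotient_add_finrank U
      have h4 := Submodule.finrank_quotient_add_finrank U'
      rw [hTs, finrank_top, hE'] at h1
      omega
    have hB' : ∀ φ : Dual K W, φ ≠ 0 → (∀ e ∈ E', φ e = 0) →
        2 * finrank K ((Fin n → K) ⧸ U') + (r + 1) * r < rk B φ := by
      intro φ hφ hφE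
      have h1 := hB φ hφ fun e he => hφE e (hEE' he)
      rw [hU']
      have : 2 * (finrank K ((Fin n → K) ⧸ U) + (r + 1)) + (r + 1) * r =
          2 * finrank K ((Fin n → K) ⧸ U) + (r + 1 + 1) * (r + 1) := by ring
      omega
    obtain ⟨w', hw'⟩ := exists_good B hs U' E' (by omega) fun φ hφ hφE => by
      have h1 := hB' φ hφ hφE
      rw [hE']
      rcases Nat.eq_zero_or_pos r with h0 | h0
      · subst h0
        omega
      · have : (r + 1) * 1 ≤ (r + 1) * r := Nat.mul_le_mul_left _ h0
        omega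
    obtain ⟨u₀, hu₀, hu₀'⟩ := hsurj ((2⁻¹ : K) • B w' w' - B w v)
    obtain ⟨y', κ', hκ', hdeg, hco, hyU, hyE⟩ := ih U' E' hE' hB' w' hw' (v + u₀)
    obtain ⟨ψ, hψ1, hψE⟩ : ∃ ψ : Dual K W, ψ (B w' w') = 1 ∧ ∀ e ∈ E', ψ e = 0 := by
      obtain ⟨ψ, h1, h2⟩ := Submodule.exists_le_ker_of_notMem hw'.2.1
      refine ⟨(ψ (B w' w'))⁻¹ • ψ, ?_, fun e he => ?_⟩
      · rw [LinearMap.smul_apply, smul_eq_mul, inv_mul_cancel₀ h1]
      · rw [LinearMap.smul_apply, LinearMap.mem_ker.1 (h2 he), smul_zero]
    obtain ⟨G, hG, hGd, hGc⟩ := form_poly (B.compr₂ ψ) y' (2 ^ r) hdeg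
    have hpow : 2 ^ (r + 1) = 2 * 2 ^ r := by rw [pow_succ, mul_comm]
    have hGc' : G.coeff (2 ^ (r + 1)) = κ' ^ 2 := by
      rw [hpow, hGc]
      have : (fun i => (y' i).coeff (2 ^ r)) = κ' • w' := by
        funext i
        rw [hco i]
        rfl
      rw [this, LinearMap.compr₂_apply]
      simp only [map_smul, LinearMap.smul_apply, hψ1, smul_eq_mul]
      ring
    refine ⟨fun i => y' i + G * C (w i), κ' ^ 2, pow_ne_zero 2 hκ', fun i => ?_, fun i => ?_,
      fun s => ?_, fun s => ?_⟩
    · refine (natDegree_add_le _ _).trans (max_le ((hdeg i).trans ?_) ?_)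
      · exact Nat.pow_le_pow_right (by norm_num) (Nat.le_succ r)
      · refine (natDegree_mul_C_le _ _).trans ?_
        rw [hpow]
        exact hGd
    · rw [coeff_add, coeff_mul_C, hGc']
      have h1 : (y' i).coeff (2 ^ (r + 1)) = 0 := by
        apply coeff_eq_zero_of_natDegree_lt
        refine (hdeg i).trans_lt ?_
        exact Nat.pow_lt_pow_right (by norm_num) (Nat.lt_succ_self r)
      rw [h1, zero_add]
    · have h1 : ev (fun i => y' i + G * C (w i)) s + v =
          (ev y' s + (v + u₀)) - u₀ + G.eval s • w := by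
        funext i
        simp [ev]
        ring
      rw [h1]
      exact U.add_mem (U.sub_mem (hyU s).1 hu₀) (U.smul_mem _ hwU)
    · have h1 : ev (fun i => y' i + G * C (w i)) s = ev y' s + G.eval s • w := by
        funext i
        simp [ev]
      have h2 : B (ev y' s) (ev y' s) - G.eval s • B w' w' ∈ E' := by
        obtain ⟨e, he, f, hf, hef⟩ := Submodule.mem_sup.1 (hyE s)
        obtain ⟨c, rfl⟩ := Submodule.mem_span_singleton.1 hf
        have h3 : G.eval s = c := by
          rw [hG s, LinearMap.compr₂_apply, ← hef, map_add, hψE e he, map_smul, hψ1, zero_add,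
            smul_eq_mul, mul_one]
        rw [h3, ← hef, add_sub_cancel_right]
        exact he
      have h3 : B w (ev y' s) + (2⁻¹ : K) • B w' w' ∈ E' := by
        have h4 : B w (ev y' s + (v + u₀)) ∈ E' := (hyU s).2
        have h5 : B w (ev y' s) + (2⁻¹ : K) • B w' w' = B w (ev y' s + (v + u₀)) -
            (B w u₀ - ((2⁻¹ : K) • B w' w' - B w v)) := by
          simp only [map_add]
          abel
        rw [h5]
        exact E'.sub_mem h4 (hEE' hu₀')
      have h4 : B (ev y' s + G.eval s • w) (ev y' s + G.eval s • w) =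
          (B (ev y' s) (ev y' s) - G.eval s • B w' w') +
          (2 * G.eval s) • (B w (ev y' s) + (2⁻¹ : K) • B w' w') +
          (G.eval s ^ 2) • B w w := by
        simp only [map_add, map_smul, LinearMap.add_apply, LinearMap.smul_apply]
        rw [hs (ev y' s) w]
        have h5 : (2 * G.eval s) • (B w (ev y' s) + (2⁻¹ : K) • B w' w') =
            G.eval s • B w (ev y' s) + G.eval s • B w (ev y' s) + G.eval s • B w' w' := by
          rw [smul_add, smul_smul, ← add_smul]
          congr 2
          · ring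
          · field_simp
        rw [h5]
        module
      rw [h1, h4]
      refine E'.add_mem (E'.add_mem h2 (E'.smul_mem _ h3)) (E'.smul_mem _ ?_)
      exact (le_sup_right : Submodule.span K {B w w} ≤ E') (Submodule.mem_span_singleton_self _)

end Pool.Agent.T2h62.QS
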