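import Pool.Agent.T2h62.QS.Inf

/-!
# Systems of equations without common zeros at infinity have finitely many solutions
-/

set_option autoImplicit false
set_option linter.unusedSectionVars false

namespace Pool.Agent.T2h62.QS

open MvPolynomial Module

variable {K : Type} [Field K] {n k : ℕ}

/-- `F` is the component of degree `d` of `f`, and `f` has degree at most `d` -/
def Tp (d : ℕ) (f F : MvPolynomial (Fin n) K) : Prop :=
  F.IsHomogeneous d ∧ ∀ m, coeff m (f - F) ≠ 0 → m.degree < d

theorem tp_deg {d : ℕ} {f F : MvPolynomial (Fin n) K} (h : Tp d f F) (m : Fin n →₀ ℕ)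
    (hm : coeff m f ≠ 0) : m.degree ≤ d := by
  by_cases h1 : coeff m (f - F) = 0
  · rw [coeff_sub, sub_eq_zero] at h1
    rw [h1] at hm
    have h2 := h.1 hm
    rw [Finsupp.degree_eq_weight_one]
    exact h2.le
  · exact (h.2 m h1).le

theorem low_add {d : ℕ} {f g : MvPolynomial (Fin n) K} (hf : ∀ m, coeff m f ≠ 0 → m.degree < d)
    (hg : ∀ m, coeff m g ≠ 0 → m.degree < d) : ∀ m, coeff m (f + g) ≠ 0 → m.degree < d := by
  intro m hm
  rw [coeff_add] at hm
  by_cases h : coeff m f = 0
  · rw [h, zero_add] at hm
    exact hg m hm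
  · exact hf m h

theorem low_mul {d e : ℕ} {f g : MvPolynomial (Fin n) K} (hf : ∀ m, coeff m f ≠ 0 → m.degree ≤ d)
    (hg : ∀ m, coeff m g ≠ 0 → m.degree < e) : ∀ m, coeff m (f * g) ≠ 0 → m.degree < d + e := by
  classical
  intro m hm
  rw [coeff_mul] at hm
  obtain ⟨⟨a, b⟩, hab, h⟩ := Finset.exists_ne_zero_of_sum_ne_zero hm
  rw [Finset.HasAntidiagonal.mem_antidiagonal] at hab
  have h1 := hf a (left_ne_zero_of_mul h)
  have h2 := hg b (right_ne_zero_of_mul h)
  rw [← hab, map_add]
  exact add_lt_add_of_le_of_lt h1 h2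

theorem Tp.add {d : ℕ} {f F g G : MvPolynomial (Fin n) K} (h : Tp d f F) (h' : Tp d g G) :
    Tp d (f + g) (F + G) := by
  refine ⟨h.1.add h'.1, ?_⟩
  rw [add_sub_add_comm]
  exact low_add h.2 h'.2

theorem Tp.mul {d e : ℕ} {f F g G : MvPolynomial (Fin n) K} (h : Tp d f F) (h' : Tp e g G) :
    Tp (d + e) (f * g) (F * G) := by
  refine ⟨h.1.mul h'.1, ?_⟩
  have h1 : f * g - F * G = f * (g - G) + G * (f - F) := by ring
  rw [h1]
  refine low_add (low_mul (tp_deg h) h'.2) ?_
  rw [add_comm d e]
  exact low_mul (fun m hm => by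
    have h2 := h'.1 hm
    rw [Finsupp.degree_eq_weight_one]
    exact h2.le) h.2

theorem Tp.neg {d : ℕ} {f F : MvPolynomial (Fin n) K} (h : Tp d f F) : Tp d (-f) (-F) := by
  refine ⟨h.1.neg, fun m hm => h.2 m ?_⟩
  intro h0
  apply hm
  rw [coeff_sub] at h0 ⊢
  rw [coeff_neg, coeff_neg]
  linear_combination -h0

theorem tp_zero (d : ℕ) : Tp d (0 : MvPolynomial (Fin n) K) 0 :=
  ⟨isHomogeneous_zero _ _ _, fun m hm => by simp at hm⟩

theorem tp_one : Tp 0 (1 : MvPolynomial (Fin n) K) 1 :=
  ⟨isHomogeneous_one _ _, fun m hm => by simp at hm⟩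

theorem tp_sum {ι : Type} (s : Finset ι) {d : ℕ} (f F : ι → MvPolynomial (Fin n) K)
    (h : ∀ i ∈ s, Tp d (f i) (F i)) : Tp d (∑ i ∈ s, f i) (∑ i ∈ s, F i) := by
  classical
  induction s using Finset.induction_on with
  | empty => simpa using tp_zero d
  | insert a s ha ih =>
    rw [Finset.sum_insert ha, Finset.sum_insert ha]
    exact (h a (Finset.mem_insert_self a s)).add (ih fun i hi => h i (Finset.mem_insert_of_mem hi))

theorem tp_prod {ι : Type} (s : Finset ι) {d : ℕ} (f F : ι → MvPolynomial (Fin n) K)
    (h : ∀ i ∈ s, Tp d (f i) (F i)) : Tp (s.card * d) (∏ i ∈ s, f i) (∏ i ∈ s, F i) := by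
  classical
  induction s using Finset.induction_on with
  | empty => simpa using tp_one
  | insert a s ha ih =>
    rw [Finset.prod_insert ha, Finset.prod_insert ha, Finset.card_insert_of_notMem ha]
    have h1 := (h a (Finset.mem_insert_self a s)).mul
      (ih fun i hi => h i (Finset.mem_insert_of_mem hi))
    have h2 : (s.card + 1) * d = d + s.card * d := by ring
    rw [h2]
    exact h1

theorem tp_det (M M' : Matrix (Fin k) (Fin k) (MvPolynomial (Fin n) K)) {d : ℕ}
    (h : ∀ i j, Tp d (M i j) (M' i j)) : Tp (k * d) M.det M'.det := by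
  rw [Matrix.det_apply, Matrix.det_apply]
  refine tp_sum _ _ _ fun σ _ => ?_
  have h1 := tp_prod Finset.univ (fun i => M (σ i) i) (fun i => M' (σ i) i) fun i _ => h (σ i) i
  rw [Finset.card_univ, Fintype.card_fin] at h1
  rcases Int.units_eq_one_or (Equiv.Perm.sign σ) with hs | hs
  · rw [hs, one_smul, one_smul]
    exact h1
  · rw [hs, Units.neg_smul, Units.neg_smul, one_smul, one_smul]
    exact h1.neg

/-- the component of degree `m` of a product with a form -/
theorem hom_mul (c Q : MvPolynomial (Fin n) K) {C m : ℕ} (hQ : Q.IsHomogeneous C) (hm : C ≤ m) :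
    homogeneousComponent m (c * Q) = homogeneousComponent (m - C) c * Q := by
  induction c using MvPolynomial.induction_on' with
  | monomial u a =>
    have h1 : (monomial u a : MvPolynomial (Fin n) K).IsHomogeneous u.degree :=
      isHomogeneous_monomial a rfl
    have h2 := h1.mul hQ
    rw [homogeneousComponent_of_mem ((mem_homogeneousSubmodule _ _).2 h2),
      homogeneousComponent_of_mem ((mem_homogeneousSubmodule _ _).2 h1)]
    by_cases h : m = u.degree + C
    · rw [if_pos h, if_pos (by omega)]
    · rw [if_neg h, if_neg (by omega), zero_mul]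
  | add p q hp hq => rw [add_mul, map_add, hp, hq, map_add, add_mul]

/-- **Finitely many solutions.** -/
theorem finite_of_top {Ω : Type} [Field Ω] [Algebra K Ω] [IsAlgClosed Ω] {ι : Type} [Fintype ι]
    (f F : ι → MvPolynomial (Fin n) K) (d : ι → ℕ) (h : ∀ i, Tp (d i) (f i) (F i))
    (hF : ∀ y : Fin n → Ω, (∀ i, aeval y (F i) = 0) → y = 0) :
    {x : Fin n → K | ∀ i, eval x (f i) = 0}.Finite := by
  classical
  let I : Ideal (MvPolynomial (Fin n) K) := Ideal.span (Set.range F)
  have hrad : ∀ s, (X s : MvPolynomial (Fin n) K) ∈ I.radical := by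
    intro s
    rw [← vanishingIdeal_zeroLocus_eq_radical (K := Ω) I, mem_vanishingIdeal_iff]
    intro x hx
    have h1 := hF x fun i => hx (F i) (Ideal.subset_span ⟨i, rfl⟩)
    rw [h1]
    simp
  choose N0 hN0 using fun s => Ideal.mem_radical_iff.1 (hrad s)
  obtain ⟨N, hN⟩ : ∃ N, N = Finset.univ.sup N0 + Finset.univ.sup d := ⟨_, rfl⟩
  have hNd : ∀ i, d i ≤ N := fun i => by
    have := Finset.le_sup (f := d) (Finset.mem_univ i)
    omega
  have hXN : ∀ s, (X s : MvPolynomial (Fin n) K) ^ N ∈ I := by
    intro s
    have h1 : N0 s ≤ N := by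
      have := Finset.le_sup (f := N0) (Finset.mem_univ s)
      omega
    rw [← Nat.sub_add_cancel h1, pow_add]
    exact I.mul_mem_left _ (hN0 s)
  have hA : ∀ s, ∃ A : ι → MvPolynomial (Fin n) K, (∀ i, (A i).IsHomogeneous (N - d i)) ∧
      (X s : MvPolynomial (Fin n) K) ^ N = ∑ i, A i * F i := by
    intro s
    obtain ⟨c, hc⟩ := Ideal.mem_span_range_iff_exists_fun.1 (hXN s)
    refine ⟨fun i => homogeneousComponent (N - d i) (c i),
      fun i => homogeneousComponent_isHomogeneous _ _, ?_⟩
    have h1 : homogeneousComponent N ((X s : MvPolynomial (Fin n) K) ^ N) =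
        (X s : MvPolynomial (Fin n) K) ^ N := homogeneousComponent_eq_self (isHomogeneous_X_pow s N)
    rw [← h1, ← hc, map_sum]
    exact Finset.sum_congr rfl fun i _ => hom_mul _ _ (h i).1 (hNd i)
  choose A hAh hA using hA
  let J : Ideal (MvPolynomial (Fin n) K) := Ideal.span (Set.range f)
  let S : Submodule K (MvPolynomial (Fin n) K ⧸ J) := Submodule.span K
    ((fun m : Fin n →₀ ℕ => Ideal.Quotient.mk J (monomial m 1)) '' {m | m.degree ≤ n * N})
  have hS : ∀ (e : ℕ) (m : Fin n →₀ ℕ), m.degree < e → Ideal.Quotient.mk J (monomial m 1) ∈ S := by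
    intro e
    induction e with
    | zero => intro m hm; omega
    | succ e ih =>
      intro m hm
      by_cases hmN : m.degree ≤ n * N
      · exact Submodule.subset_span ⟨m, hmN, rfl⟩
      obtain ⟨s, hs⟩ : ∃ s, N ≤ m s := by
        by_contra hc
        push Not at hc
        apply hmN
        rw [Finsupp.degree_eq_sum]
        calc ∑ s, m s ≤ ∑ _s : Fin n, N := Finset.sum_le_sum fun s _ => (hc s).le
          _ = n * N := by simp
      obtain ⟨m', hm'⟩ : ∃ m', m = m' + Finsupp.single s N := by
        refine ⟨m - Finsupp.single s N, ?_⟩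
        ext t
        simp only [Finsupp.add_apply, Finsupp.tsub_apply]
        by_cases h : t = s
        · subst h
          rw [Finsupp.single_eq_same]
          omega
        · rw [Finsupp.single_eq_of_ne h]
          omega
      have hdeg : m.degree = m'.degree + N := by
        rw [hm', map_add, Finsupp.degree_single]
      have h1 : (monomial m 1 : MvPolynomial (Fin n) K) =
          monomial m' 1 * (X s : MvPolynomial (Fin n) K) ^ N := by
        rw [X_pow_eq_monomial, monomial_mul, mul_one, ← hm']
      have h2 : (monomial m 1 : MvPolynomial (Fin n) K) =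
          ∑ i, monomial m' 1 * A s i * f i - ∑ i, monomial m' 1 * (A s i * (f i - F i)) := by
        rw [h1, hA s, Finset.mul_sum, ← Finset.sum_sub_distrib]
        exact Finset.sum_congr rfl fun i _ => by ring
      have h3 : Ideal.Quotient.mk J (∑ i, monomial m' 1 * A s i * f i) = 0 := by
        rw [Ideal.Quotient.eq_zero_iff_mem]
        exact Ideal.sum_mem _ fun i _ => J.mul_mem_left _ (Ideal.subset_span ⟨i, rfl⟩)
      rw [h2, map_sub, h3, zero_sub]
      refine S.neg_mem ?_
      rw [map_sum]
      refine S.sum_mem fun i _ => ?_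
      obtain ⟨P, hP⟩ : ∃ P, P = monomial m' 1 * (A s i * (f i - F i)) := ⟨_, rfl⟩
      rw [← hP]
      have h4 : ∀ a, coeff a P ≠ 0 → a.degree < e := by
        intro a ha
        rw [hP] at ha
        have h5 := low_mul (d := m'.degree) (e := N - d i + d i) (f := monomial m' (1 : K))
          (g := A s i * (f i - F i)) (fun b hb => by
            rw [coeff_monomial] at hb
            by_cases hbm : m' = b
            · rw [hbm]
            · rw [if_neg hbm] at hb
              exact absurd rfl hb)
          (low_mul (fun b hb => by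
            have h2 := hAh s i hb
            rw [Finsupp.degree_eq_weight_one]
            exact h2.le) (h i).2) a ha
        have := hNd i
        omega
      rw [P.as_sum, map_sum]
      refine S.sum_mem fun a ha => ?_
      have h5 : (monomial a (coeff a P) : MvPolynomial (Fin n) K) =
          coeff a P • monomial a 1 := by
        rw [smul_monomial, smul_eq_mul, mul_one]
      have h6 : Ideal.Quotient.mk J (coeff a P • monomial a (1 : K)) =
          coeff a P • Ideal.Quotient.mk J (monomial a 1) := rfl
      rw [h5, h6]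
      exact S.smul_mem _ (ih a (h4 a (mem_support_iff.1 ha)))
  have hfinm : {m : Fin n →₀ ℕ | m.degree ≤ n * N}.Finite := by
    have h1 : (Finsupp.equivFunOnFinite '' {m : Fin n →₀ ℕ | m.degree ≤ n * N}).Finite := by
      refine (Set.Finite.pi' (t := fun _ : Fin n => Set.Iic (n * N))
        fun _ => Set.finite_Iic (n * N)).subset ?_
      rintro _ ⟨m, hm, rfl⟩ i
      have h2 : m i ≤ m.degree := by
        rw [Finsupp.degree_eq_sum]
        exact Finset.single_le_sum (f := fun i => m i) (fun _ _ => Nat.zero_le _)
          (Finset.mem_univ i)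
      exact h2.trans hm
    exact Set.Finite.of_finite_image h1 Finsupp.equivFunOnFinite.injective.injOn
  have hfin : Module.Finite K (MvPolynomial (Fin n) K ⧸ J) := by
    refine ⟨⟨(hfinm.image (fun m : Fin n →₀ ℕ => Ideal.Quotient.mk J (monomial m 1))).toFinset, ?_⟩⟩
    rw [Set.Finite.coe_toFinset, eq_top_iff]
    rintro z -
    obtain ⟨P, rfl⟩ := Ideal.Quotient.mk_surjective z
    rw [P.as_sum, map_sum]
    refine Submodule.sum_mem _ fun a ha => ?_
    have h5 : (monomial a (coeff a P) : MvPolynomial (Fin n) K) =
        coeff a P • monomial a 1 := by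
      rw [smul_monomial, smul_eq_mul, mul_one]
    have h6 : Ideal.Quotient.mk J (coeff a P • monomial a (1 : K)) =
        coeff a P • Ideal.Quotient.mk J (monomial a 1) := rfl
    rw [h5, h6]
    exact Submodule.smul_mem _ _ (hS (a.degree + 1) a (Nat.lt_succ_self _))
  have hint : ∀ s, IsIntegral K (Ideal.Quotient.mk J (X s)) := fun s =>
    IsIntegral.of_finite K _
  choose p hpm hp using hint
  have hp' : ∀ s (x : Fin n → K), (∀ i, eval x (f i) = 0) → (p s).eval (x s) = 0 := by
    intro s x hx
    have h1 : Polynomial.aeval (X s : MvPolynomial (Fin n) K) (p s) ∈ J := by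
      rw [← Ideal.Quotient.eq_zero_iff_mem]
      have h2 := hp s
      rw [← Polynomial.aeval_def] at h2
      rw [← h2]
      exact (Polynomial.aeval_algHom_apply (Ideal.Quotient.mkₐ K J) (X s) (p s)).symm
    have h2 : J ≤ RingHom.ker (eval x) := by
      rw [Ideal.span_le]
      rintro _ ⟨i, rfl⟩
      exact hx i
    have h3 := h2 h1
    rw [RingHom.mem_ker] at h3
    have h4 := Polynomial.aeval_algHom_apply (aeval x : MvPolynomial (Fin n) K →ₐ[K] K) (X s) (p s)
    rw [aeval_X] at h4
    rw [Polynomial.coe_aeval_eq_eval] at h4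
    rw [h4]
    exact h3
  refine (Set.Finite.pi' (t := fun s : Fin n => {a | (p s).IsRoot a}) fun s =>
    Polynomial.finite_setOfPred_isRoot (hpm s).ne_zero).subset ?_
  intro x hx s
  exact hp' s x hx

theorem exists_minor {Ω : Type} [Field Ω] (M : Matrix (Fin k) (Fin n) Ω)
    (h : LinearIndependent Ω (fun j => M j)) : ∃ σ : Fin k → Fin n, (M.submatrix id σ).det ≠ 0 := by
  classical
  have h1 : M.rank = k := by
    have := LinearIndependent.rank_matrix (M := M) h
    rwa [Fintype.card_fin] at this
  have h2 : LinearMap.range M.mulVecLin = ⊤ := by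
    apply Submodule.eq_top_of_finrank_eq
    rw [finrank_fin_fun]
    exact h1
  rw [Matrix.range_mulVecLin] at h2
  obtain ⟨κ, a, ha, hsp, hli⟩ := exists_linearIndependent' Ω M.col
  have hκ : Finite κ := Finite.of_injective a ha
  have hκ' : Fintype κ := Fintype.ofFinite κ
  rw [h2] at hsp
  let b := Basis.mk hli hsp.ge
  have hcard : Fintype.card κ = k := by
    have := finrank_eq_card_basis b
    rw [finrank_fin_fun] at this
    exact this.symm
  let e : Fin k ≃ κ := (Fintype.equivFinOfCardEq hcard).symm
  refine ⟨a ∘ e, ?_⟩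
  have h3 : LinearIndependent Ω (M.submatrix id (a ∘ e)).col := by
    have h4 := hli.comp e e.injective
    exact h4
  rw [Matrix.linearIndependent_cols_iff_isUnit, Matrix.isUnit_iff_isUnit_det] at h3
  exact h3.ne_zero

/-- the singular solutions of a system which is nonsingular at infinity are finite in number -/
theorem finite_sing (q : Fin k → MvPolynomial (Fin n) K)
    (hq : ∀ j, (q j).totalDegree ≤ 2) (hs : SmoothAtInfinity q) :
    {x : Fin n → K | (∀ j, eval x (q j) = 0) ∧ x ∉ NS q}.Finite := by
  classical
  let f : Fin k ⊕ (Fin k → Fin n) → MvPolynomial (Fin n) K := fun i => i.elim q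
    fun σ => (Matrix.of fun j l => pderiv (σ l) (q j)).det
  let F : Fin k ⊕ (Fin k → Fin n) → MvPolynomial (Fin n) K := fun i => i.elim
    (fun j => homogeneousComponent 2 (q j))
    fun σ => (Matrix.of fun j l => pderiv (σ l) (homogeneousComponent 2 (q j))).det
  let d : Fin k ⊕ (Fin k → Fin n) → ℕ := fun i => i.elim (fun _ => 2) fun _ => k * 1
  have htop : ∀ H : MvPolynomial (Fin n) K, H.totalDegree ≤ 2 →
      Tp 2 H (homogeneousComponent 2 H) := by
    intro H hH
    refine ⟨homogeneousComponent_isHomogeneous _ _, fun m hm => ?_⟩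
    rw [coeff_sub, coeff_homogeneousComponent] at hm
    by_cases h1 : m.degree = 2
    · rw [if_pos h1, sub_self] at hm
      exact absurd rfl hm
    · rw [if_neg h1, sub_zero] at hm
      have h2 := Pool.Agent.R565.PU.deg_le_of_mem hH (mem_support_iff.2 hm)
      omega
  have hpd : ∀ (H : MvPolynomial (Fin n) K) (a : Fin n), H.totalDegree ≤ 2 →
      Tp 1 (pderiv a H) (pderiv a (homogeneousComponent 2 H)) := by
    intro H a hH
    refine ⟨?_, fun m hm => ?_⟩
    · have := (homogeneousComponent_isHomogeneous 2 H).pderiv (i := a)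
      exact this
    · rw [← map_sub] at hm
      have h1 := htop H hH
      obtain ⟨G, hG⟩ : ∃ G, G = H - homogeneousComponent 2 H := ⟨_, rfl⟩
      rw [← hG] at hm
      have h2 := h1.2
      rw [← hG] at h2
      rw [G.as_sum, map_sum, coeff_sum] at hm
      obtain ⟨u, hu, hne⟩ := Finset.exists_ne_zero_of_sum_ne_zero hm
      rw [pderiv_monomial, coeff_monomial] at hne
      have h3 : u - Finsupp.single a 1 = m := by
        by_contra h
        rw [if_neg h] at hne
        exact hne rfl
      rw [if_pos h3] at hne
      have h4 : u a ≠ 0 := by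
        intro h0
        rw [h0, Nat.cast_zero, mul_zero] at hne
        exact hne rfl
      have h5 := h2 u (mem_support_iff.1 hu)
      have h6 : u = m + Finsupp.single a 1 := by
        rw [← h3]
        ext t
        simp only [Finsupp.add_apply, Finsupp.tsub_apply]
        by_cases h : t = a
        · subst h
          rw [Finsupp.single_eq_same]
          omega
        · rw [Finsupp.single_eq_of_ne h]
          omega
      rw [h6, map_add, Finsupp.degree_single] at h5
      omega
  have hT : ∀ i, Tp (d i) (f i) (F i) := by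
    rintro (j | σ)
    · exact htop _ (hq j)
    · exact tp_det _ _ fun j l => hpd _ _ (hq j)
  refine (finite_of_top (Ω := AlgebraicClosure K) f F d hT ?_).subset ?_
  · intro y hy
    by_contra hy0
    have h1 := hs y hy0 fun j => hy (Sum.inl j)
    obtain ⟨σ, hσ⟩ := exists_minor (Matrix.of fun j i => aeval y
      (pderiv i (homogeneousComponent 2 (q j)))) h1
    apply hσ
    have h2 := hy (Sum.inr σ)
    have h3 : aeval y (F (Sum.inr σ)) = (Matrix.of fun j l => aeval y
        (pderiv (σ l) (homogeneousComponent 2 (q j)))).det := by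
      show aeval y (Matrix.det _) = _
      rw [AlgHom.map_det]
      congr 1
    rw [h3] at h2
    exact h2
  · rintro x ⟨hx, hxn⟩ (j | σ)
    · exact hx j
    · by_contra hne
      apply hxn
      refine ⟨hx, ?_⟩
      have h3 : eval x (f (Sum.inr σ)) = (Matrix.of fun j l => eval x
          (pderiv (σ l) (q j))).det := by
        show eval x (Matrix.det _) = _
        rw [RingHom.map_det]
        congr 1
      rw [h3] at hne
      rw [Fintype.linearIndependent_iff]
      intro c hc
      have h4 : Matrix.vecMul c (Matrix.of fun j l => eval x (pderiv (σ l) (q j))) = 0 := by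
        funext l
        have := congrFun hc (σ l)
        rw [Finset.sum_apply] at this
        simpa [Matrix.vecMul, dotProduct] using this
      exact fun j => congrFun (Matrix.eq_zero_of_vecMul_eq_zero hne h4) j

end Pool.Agent.T2h62.QS
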