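import Pool.Agent.T2h62.QS.Sys2
import Pool.Agent.Helper273.Gen.P_common_zero

/-!
# Systems which are nonsingular at infinity have high rank
-/

set_option autoImplicit false
set_option linter.unusedSectionVars false

namespace Pool.Agent.T2h62.QS

open MvPolynomial Module

variable {K : Type} [Field K] {n k : ℕ}

/-- The common zeros at infinity of the system `q = 0` are nonsingular: at all nontrivial common zeros
of the leading forms over the algebraic closure the gradients of the leading forms are linearly
independent. -/
def SmoothAtInfinity (q : Fin k → MvPolynomial (Fin n) K) : Prop :=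
  ∀ y : Fin n → AlgebraicClosure K, y ≠ 0 →
    (∀ j, aeval y (homogeneousComponent 2 (q j)) = 0) →
    LinearIndependent (AlgebraicClosure K)
      (fun j i => aeval y (pderiv i (homogeneousComponent 2 (q j))))

section comp

variable {Ω : Type} [Field Ω] [Algebra K Ω]

theorem hc_C (c : K) : homogeneousComponent 2 (C c : MvPolynomial (Fin n) K) = 0 := by
  apply homogeneousComponent_eq_zero
  rw [totalDegree_C]
  norm_num

theorem hc_X (c : K) (i : Fin n) :
    homogeneousComponent 2 (C c * X i : MvPolynomial (Fin n) K) = 0 := by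
  have h1 : (C c * X i : MvPolynomial (Fin n) K) ∈ homogeneousSubmodule (Fin n) K 1 := by
    rw [mem_homogeneousSubmodule]
    exact isHomogeneous_C_mul_X c i
  rw [homogeneousComponent_of_mem h1, if_neg (by norm_num)]

theorem hc_XX (c : K) (i j : Fin n) :
    homogeneousComponent 2 (C c * (X i * X j) : MvPolynomial (Fin n) K) = C c * (X i * X j) := by
  have h1 : (C c * (X i * X j) : MvPolynomial (Fin n) K) ∈ homogeneousSubmodule (Fin n) K 2 := by
    rw [mem_homogeneousSubmodule]
    have := ((isHomogeneous_X K i).mul (isHomogeneous_X K j)).C_mul c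
    exact this
  rw [homogeneousComponent_of_mem h1, if_pos rfl]

theorem hc_val (H : MvPolynomial (Fin n) K) (hH : H.totalDegree ≤ 2) (y : Fin n → Ω) :
    aeval y (homogeneousComponent 2 H) * 2 =
      ∑ a, ∑ b, algebraMap K Ω (hess H a b) * y a * y b := by
  refine quad_induction (fun H => aeval y (homogeneousComponent 2 H) * 2 =
      ∑ a, ∑ b, algebraMap K Ω (hess H a b) * y a * y b) ?_ ?_ ?_ ?_ H hH
  · intro c
    rw [hc_C, hess_C]
    simp
  · intro c i
    rw [hc_X, hess_X]
    simp
  · intro c i j
    rw [hc_XX]
    have h2 : ∀ a b : Fin n, algebraMap K Ω (hess (C c * (X i * X j) : MvPolynomial (Fin n) K) a b) *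
        y a * y b =
        (if i = a then (if j = b then algebraMap K Ω c * y a * y b else 0) else 0) +
        (if j = a then (if i = b then algebraMap K Ω c * y a * y b else 0) else 0) := by
      intro a b
      rw [hess_XX]
      split_ifs <;> simp
      ring
    simp only [h2, Finset.sum_add_distrib]
    simp
    ring
  · intro f g hf hg
    rw [map_add, map_add, add_mul, hf, hg, hess_add]
    simp only [Matrix.add_apply, map_add, add_mul, Finset.sum_add_distrib]

theorem hc_grad (H : MvPolynomial (Fin n) K) (hH : H.totalDegree ≤ 2) (y : Fin n → Ω) (a : Fin n) :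
    aeval y (pderiv a (homogeneousComponent 2 H)) = ∑ b, algebraMap K Ω (hess H a b) * y b := by
  refine quad_induction (fun H => aeval y (pderiv a (homogeneousComponent 2 H)) =
      ∑ b, algebraMap K Ω (hess H a b) * y b) ?_ ?_ ?_ ?_ H hH
  · intro c
    rw [hc_C, hess_C]
    simp
  · intro c i
    rw [hc_X, hess_X]
    simp
  · intro c i j
    rw [hc_XX]
    have h2 : ∀ b : Fin n, algebraMap K Ω (hess (C c * (X i * X j) : MvPolynomial (Fin n) K) a b) *
        y b =
        (if j = b then (if i = a then algebraMap K Ω c * y b else 0) else 0) +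
        (if i = b then (if j = a then algebraMap K Ω c * y b else 0) else 0) := by
      intro b
      rw [hess_XX]
      split_ifs <;> simp
      ring
    simp only [h2, Finset.sum_add_distrib, Finset.sum_ite_eq, Finset.mem_univ, if_true]
    rw [pderiv_mul, pderiv_C, zero_mul, zero_add, pderiv_mul, pd_X, pd_X, map_mul, aeval_C, map_add,
      map_mul, map_mul, aeval_X, aeval_X]
    split_ifs <;> simp
    ring
  · intro f g hf hg
    rw [map_add, map_add, map_add, hf, hg, hess_add]
    simp only [Matrix.add_apply, map_add, add_mul, Finset.sum_add_distrib]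

end comp

theorem highRank_of_smooth' {Ω : Type} [Field Ω] [Algebra K Ω] [IsAlgClosed Ω] [CharZero Ω]
    (q : Fin k → MvPolynomial (Fin n) K)
    (hq : ∀ j, (q j).totalDegree ≤ 2)
    (hs : ∀ y : Fin n → Ω, y ≠ 0 → (∀ j, aeval y (homogeneousComponent 2 (q j)) = 0) →
      LinearIndependent Ω (fun j i => aeval y (pderiv i (homogeneousComponent 2 (q j)))))
    (hn : k ^ 2 + 2 * k ≤ n) : HighRank q := by
  classical
  intro c hc
  by_contra hcon
  push Not at hcon
  obtain ⟨j₀, hj₀⟩ : ∃ j, c j ≠ 0 := by
    by_contra h
    push Not at h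
    exact hc (funext h)
  obtain ⟨k', rfl⟩ : ∃ k', k = k' + 1 := ⟨k - 1, by have := j₀.2; omega⟩
  obtain ⟨al, hal⟩ : ∃ al : K →+* Ω, al = algebraMap K Ω := ⟨_, rfl⟩
  obtain ⟨M, hM⟩ : ∃ M, M = hess (∑ j, C (c j) * q j) := ⟨_, rfl⟩
  rw [← hM] at hcon
  obtain ⟨d, hd⟩ : ∃ d, finrank K (LinearMap.ker M.mulVecLin) = d := ⟨_, rfl⟩
  have hdk : k' + 1 ≤ d := by
    have h1 := LinearMap.finrank_range_add_finrank_ker M.mulVecLin
    rw [finrank_fin_fun, hd] at h1
    have h2 : finrank K (LinearMap.range M.mulVecLin) = M.rank := rfl
    rw [h2] at h1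
    nlinarith
  let b := finBasisOfFinrankEq K (LinearMap.ker M.mulVecLin) hd
  have hb : ∀ l a, ∑ a', M a a' * (b l : Fin n → K) a' = 0 := by
    intro l a
    have h1 := (b l).2
    rw [LinearMap.mem_ker] at h1
    exact congrFun h1 a
  -- a left inverse
  obtain ⟨g, hg⟩ : ∃ g : Fin d → Fin n → K, ∀ l l', ∑ a, g l' a * (b l : Fin n → K) a =
      if l = l' then 1 else 0 := by
    have hli : LinearIndependent K (fun l => (b l : Fin n → K)) := by
      have := b.linearIndependent.map' (LinearMap.ker M.mulVecLin).subtype (Submodule.ker_subtype _)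
      exact this
    obtain ⟨π, hπ⟩ := LinearMap.exists_leftInverse_of_injective
      (Fintype.linearCombination K (fun l => (b l : Fin n → K)))
      (LinearMap.ker_eq_bot.2 (linearIndependent_iff_injective_fintypeLinearCombination.1 hli))
    refine ⟨fun l' a => π (Pi.single a 1) l', fun l l' => ?_⟩
    have h1 := LinearMap.congr_fun hπ (Pi.single l (1 : K))
    rw [LinearMap.comp_apply, Fintype.linearCombination_apply_single, one_smul,
      LinearMap.id_apply, LinearMap.pi_apply_eq_sum_univ π] at h1
    have h2 := congrFun h1 l'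
    rw [Finset.sum_apply, Pi.single_apply] at h2
    have h3 : (if l = l' then (1 : K) else 0) = if l' = l then 1 else 0 := by
      by_cases h : l = l'
      · subst h; simp
      · rw [if_neg h, if_neg (Ne.symm h)]
    rw [h3, ← h2]
    refine Finset.sum_congr rfl fun a _ => ?_
    rw [Pi.smul_apply, smul_eq_mul, mul_comm]
    have h4 : (fun j => if a = j then (1 : K) else 0) = Pi.single a 1 := by
      funext a'
      by_cases h : a = a'
      · subst h; simp
      · rw [if_neg h, Pi.single_eq_of_ne (Ne.symm h)]
    rw [h4]
  -- a common zero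
  let Lf : Fin n → MvPolynomial (Fin d) Ω := fun a => ∑ l, C (al ((b l : Fin n → K) a)) * X l
  obtain ⟨t, ht0, ht⟩ := Pool.Agent.Helper273.Sup.common_zero (L := Ω) (m := d) (q := k') (by omega)
    (fun i => aeval Lf (homogeneousComponent 2 (q (j₀.succAbove i)))) (fun _ => 2)
    (fun _ => by norm_num) (fun i => by
      have h1 := (homogeneousComponent_isHomogeneous 2 (q (j₀.succAbove i))).aeval (g := Lf) (n := 1)
        (fun a => IsHomogeneous.sum _ _ _ fun l _ => isHomogeneous_C_mul_X _ _)
      simpa using h1)
  obtain ⟨y, hy⟩ : ∃ y : Fin n → Ω, y = fun a => ∑ l, al ((b l : Fin n → K) a) * t l := ⟨_, rfl⟩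
  have hyL : ∀ a, eval t (Lf a) = y a := by
    intro a
    rw [hy]
    simp [Lf]
  have hev : ∀ H : MvPolynomial (Fin n) K, eval t (aeval Lf H) = aeval y H := by
    intro H
    induction H using MvPolynomial.induction_on with
    | C a =>
      rw [aeval_C, aeval_C, IsScalarTower.algebraMap_apply K Ω (MvPolynomial (Fin d) Ω),
        MvPolynomial.algebraMap_eq, eval_C]
    | add p q hp hq => rw [map_add, map_add, map_add, hp, hq]
    | mul_X p i hp => rw [map_mul, map_mul, map_mul, hp, aeval_X, aeval_X, hyL]
  have hy0 : y ≠ 0 := by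
    intro h0
    apply ht0
    funext l'
    have h1 : ∑ a, al (g l' a) * y a = t l' := by
      rw [hy]
      simp only [Finset.mul_sum]
      rw [Finset.sum_comm]
      have h2 : ∀ l, ∑ a, al (g l' a) * (al ((b l : Fin n → K) a) * t l) =
          (if l = l' then 1 else 0) * t l := by
        intro l
        have h3 : ∀ a, al (g l' a) * (al ((b l : Fin n → K) a) * t l) =
            al (g l' a * (b l : Fin n → K) a) * t l := by
          intro a
          rw [map_mul]
          ring
        simp only [h3]
        rw [← Finset.sum_mul, ← map_sum, hg]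
        congr 1
        split_ifs <;> simp
      simp only [h2]
      simp
    rw [← h1, h0]
    simp
  have hMy : ∀ a, ∑ a', al (M a a') * y a' = 0 := by
    intro a
    rw [hy]
    simp only [Finset.mul_sum]
    rw [Finset.sum_comm]
    refine Finset.sum_eq_zero fun l _ => ?_
    have h3 : ∀ a', al (M a a') * (al ((b l : Fin n → K) a') * t l) =
        al (M a a' * (b l : Fin n → K) a') * t l := by
      intro a'
      rw [map_mul]
      ring
    simp only [h3]
    rw [← Finset.sum_mul, ← map_sum, hb, map_zero, zero_mul]
  have hMe : ∀ a a', al (M a a') = ∑ j, al (c j) * al (hess (q j) a a') := by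
    intro a a'
    rw [hM, hess_sum, Matrix.sum_apply, map_sum]
    refine Finset.sum_congr rfl fun j _ => ?_
    rw [Matrix.smul_apply, smul_eq_mul, map_mul]
  have hgrad : ∀ a, ∑ j, al (c j) * aeval y (pderiv a (homogeneousComponent 2 (q j))) = 0 := by
    intro a
    have h1 : ∀ j, al (c j) * aeval y (pderiv a (homogeneousComponent 2 (q j))) =
        ∑ a', al (c j) * al (hess (q j) a a') * y a' := by
      intro j
      rw [hc_grad (q j) (hq j) y a, ← hal, Finset.mul_sum]
      exact Finset.sum_congr rfl fun a' _ => by ring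
    simp only [h1]
    rw [Finset.sum_comm, ← hMy a]
    refine Finset.sum_congr rfl fun a' _ => ?_
    rw [hMe, Finset.sum_mul]
  have hval : ∑ j, al (c j) * aeval y (homogeneousComponent 2 (q j)) = 0 := by
    have h1 : (∑ j, al (c j) * aeval y (homogeneousComponent 2 (q j))) * 2 =
        ∑ a, (∑ a', al (M a a') * y a') * y a := by
      rw [Finset.sum_mul]
      have h2 : ∀ j, al (c j) * aeval y (homogeneousComponent 2 (q j)) * 2 =
          ∑ a, ∑ a', al (c j) * (al (hess (q j) a a') * y a * y a') := by
        intro j
        rw [mul_assoc, hc_val (q j) (hq j) y, ← hal, Finset.mul_sum]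
        exact Finset.sum_congr rfl fun a _ => by rw [Finset.mul_sum]
      simp only [h2]
      rw [Finset.sum_comm]
      refine Finset.sum_congr rfl fun a _ => ?_
      rw [Finset.sum_comm, Finset.sum_mul]
      refine Finset.sum_congr rfl fun a' _ => ?_
      rw [hMe, Finset.sum_mul, Finset.sum_mul]
      exact Finset.sum_congr rfl fun j _ => by ring
    simp only [hMy, zero_mul, Finset.sum_const_zero] at h1
    exact (mul_eq_zero.1 h1).resolve_right two_ne_zero
  have hzero : ∀ j, aeval y (homogeneousComponent 2 (q j)) = 0 := by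
    have h1 : ∀ i, aeval y (homogeneousComponent 2 (q (j₀.succAbove i))) = 0 := by
      intro i
      rw [← hev]
      exact ht i
    intro j
    rcases Fin.eq_self_or_eq_succAbove j₀ j with h | ⟨i, rfl⟩
    · subst h
      rw [Fin.sum_univ_succAbove _ j] at hval
      simp only [h1, mul_zero, Finset.sum_const_zero, add_zero] at hval
      refine (mul_eq_zero.1 hval).resolve_left fun h0 => ?_
      rw [map_eq_zero] at h0
      exact hj₀ h0
    · exact h1 i
  have hind := hs y hy0 hzero
  rw [Fintype.linearIndependent_iff] at hind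
  have h1 := hind (fun j => al (c j)) (by
    funext a
    rw [Finset.sum_apply]
    simpa using hgrad a) j₀
  rw [map_eq_zero] at h1
  exact hj₀ h1

theorem highRank_of_smooth [CharZero K] (q : Fin k → MvPolynomial (Fin n) K)
    (hq : ∀ j, (q j).totalDegree ≤ 2) (hs : SmoothAtInfinity q) (hn : k ^ 2 + 2 * k ≤ n) :
    HighRank q := by
  have : CharZero (AlgebraicClosure K) :=
    charZero_of_injective_algebraMap (algebraMap K (AlgebraicClosure K)).injective
  exact highRank_of_smooth' q hq hs hn

end Pool.Agent.T2h62.QS
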