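import Pool.Agent.T2h62.QS.Arc
import Pool.Agent.H135R2.VS.Der
import Pool.Agent.Y718.FQ.Cov

/-!
# The tangent criterion

If at every point of `X` the directions of the rational arcs in `X` through the point span the tangent
space given by equations of `X`, then `X` is a finite union of irreducible sets such that the rational
functions on them with values in a flat set are constant.
-/

set_option autoImplicit false
set_option linter.unusedSectionVars false

namespace Pool.Agent.T2h62.QS

open MvPolynomial Pool.Agent.Y718.FQ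

variable {K : Type} [Field K] {n : ℕ}

theorem dif_add (x : Fin n → K) (H G : MvPolynomial (Fin n) K) (v : Fin n → K) :
    dif x (H + G) v = dif x H v + dif x G v := by
  simp only [dif, map_add, add_mul, Finset.sum_add_distrib]

theorem dif_mul (x : Fin n → K) (H G : MvPolynomial (Fin n) K) (v : Fin n → K) :
    dif x (H * G) v = eval x H * dif x G v + eval x G * dif x H v := by
  simp only [dif, Derivation.leibniz, map_add, smul_eq_mul, map_mul, add_mul,
    Finset.sum_add_distrib, Finset.mul_sum]
  congr 1 <;> exact Finset.sum_congr rfl fun i _ => by ring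

theorem dif_sub (x : Fin n → K) (H G : MvPolynomial (Fin n) K) (v : Fin n → K) :
    dif x (H - G) v = dif x H v - dif x G v := by
  simp only [dif, map_sub, sub_mul, Finset.sum_sub_distrib]

theorem dif_C (x : Fin n → K) (c : K) (v : Fin n → K) : dif x (C c) v = 0 := by
  simp [dif]

theorem dif_vadd (x : Fin n → K) (H : MvPolynomial (Fin n) K) (v w : Fin n → K) :
    dif x H (v + w) = dif x H v + dif x H w := by
  simp only [dif, Pi.add_apply, mul_add, Finset.sum_add_distrib]

theorem dif_smul (x : Fin n → K) (H : MvPolynomial (Fin n) K) (c : K) (v : Fin n → K) :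
    dif x H (c • v) = c * dif x H v := by
  simp only [dif, Pi.smul_apply, smul_eq_mul, Finset.mul_sum]
  exact Finset.sum_congr rfl fun i _ => by ring

/-- the chain rule for a derivation -/
theorem der_aeval' {E : Type} [Field E] [Algebra K E] (D : Derivation K E E) (ξ : Fin n → E)
    (H : MvPolynomial (Fin n) K) :
    D (aeval ξ H) = ∑ i, aeval ξ (pderiv i H) * D (ξ i) := by
  induction H using MvPolynomial.induction_on with
  | C a => simp
  | add p q hp hq =>
    simp only [map_add, hp, hq, add_mul, Finset.sum_add_distrib]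
  | mul_X p i hp =>
    rw [map_mul, aeval_X, Derivation.leibniz, hp]
    have h1 : ∀ j, aeval ξ (pderiv j (p * X i)) * D (ξ j) =
        ξ i * (aeval ξ (pderiv j p) * D (ξ j)) + aeval ξ p * (if j = i then D (ξ j) else 0) := by
      intro j
      rw [pderiv_mul, pderiv_X, map_add, map_mul, map_mul, aeval_X]
      by_cases hij : i = j
      · subst hij
        simp
        ring
      · rw [Pi.single_eq_of_ne hij, if_neg (Ne.symm hij)]
        simp
        ring
    simp only [h1, Finset.sum_add_distrib, ← Finset.mul_sum, Finset.sum_ite_eq', Finset.mem_univ,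
      if_true, smul_eq_mul]
    ring

theorem aux1 {E : Type} [Field E] (u w d : E) (hw : w ≠ 0) :
    w * (1 * w + (u / w) * d) = w * w + u * d := by
  field_simp

theorem aux2 {E : Type} [Field E] (c u w : E) (hw : w ≠ 0) (N r : ℕ) (hr : r ≤ N) :
    c * u ^ r * w ^ (N - r) = w ^ N * (c * (u / w) ^ r) := by
  have h2 : w ^ N = w ^ (N - r) * w ^ r := by
    rw [← pow_add, Nat.sub_add_cancel hr]
  rw [h2, div_pow]
  field_simp

section prime

variable [CharZero K] (P : Ideal (MvPolynomial (Fin n) K)) [P.IsPrime]

/-- The function field argument: a rational function all of whose differentials vanish on the tangent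
spaces is algebraic. -/
theorem alg_of_dif {ι : Type} (F : ι → MvPolynomial (Fin n) K) (hF : ∀ j, F j ∈ P)
    (p q : MvPolynomial (Fin n) K) (hq : q ∉ P)
    (h : ∀ a : Fin n → MvPolynomial (Fin n) K, (∀ j, ∑ i, pderiv i (F j) * a i ∈ P) →
      ∑ i, (q * pderiv i p - p * pderiv i q) * a i ∈ P) :
    ∃ m : Polynomial K, m ≠ 0 ∧
      ∑ r ∈ Finset.range (m.natDegree + 1), C (m.coeff r) * p ^ r * q ^ (m.natDegree - r) ∈ P := by
  classical
  let A := MvPolynomial (Fin n) K ⧸ P
  let E := FractionRing A
  let ξ : Fin n → E := fun i => algebraMap A E (Ideal.Quotient.mk P (X i))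
  have hπ : ∀ f : MvPolynomial (Fin n) K, aeval ξ f = algebraMap A E (Ideal.Quotient.mk P f) := by
    intro f
    induction f using MvPolynomial.induction_on with
    | C a =>
      rw [aeval_C, IsScalarTower.algebraMap_apply K A E]
      rfl
    | add p q hp hq => rw [map_add, map_add, map_add, hp, hq]
    | mul_X p i hp => rw [map_mul, map_mul, map_mul, hp, aeval_X]
  have hinj : Function.Injective (algebraMap A E) := IsFractionRing.injective A E
  have hz : ∀ f : MvPolynomial (Fin n) K, aeval ξ f = 0 ↔ f ∈ P := by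
    intro f
    rw [hπ, map_eq_zero_iff _ hinj, Ideal.Quotient.eq_zero_iff_mem]
  have hq0 : aeval ξ q ≠ 0 := fun h0 => hq ((hz q).1 h0)
  have halg : IsAlgebraic K (aeval ξ p / aeval ξ q : E) := by
    by_contra htr
    have hind : AlgebraicIndependent K (fun _ : Unit => (aeval ξ p / aeval ξ q : E)) := by
      rw [algebraicIndependent_unique_type_iff]
      exact htr
    obtain ⟨D, hD⟩ := Pool.Agent.H135R2.VS.exists_der hind (fun _ => 1)
    have hD1 : D (aeval ξ p / aeval ξ q : E) = 1 := hD ()
    -- a common denominator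
    obtain ⟨b, hb⟩ := IsLocalization.exist_integer_multiples_of_finset (nonZeroDivisors A)
      (Finset.univ.image fun i => D (ξ i))
    have hb' : ∀ i, ∃ a : MvPolynomial (Fin n) K, aeval ξ a = algebraMap A E b * D (ξ i) := by
      intro i
      obtain ⟨a, ha⟩ := hb (D (ξ i)) (Finset.mem_image_of_mem _ (Finset.mem_univ i))
      obtain ⟨a, rfl⟩ := Ideal.Quotient.mk_surjective a
      refine ⟨a, ?_⟩
      rw [hπ, ha, Algebra.smul_def]
    choose a ha using hb'
    have hb0 : algebraMap A E b ≠ 0 := by
      rw [Ne, map_eq_zero_iff _ hinj]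
      exact nonZeroDivisors.coe_ne_zero b
    have hchain : ∀ H : MvPolynomial (Fin n) K, aeval ξ (∑ i, pderiv i H * a i) =
        algebraMap A E b * D (aeval ξ H) := by
      intro H
      rw [der_aeval', map_sum, Finset.mul_sum]
      refine Finset.sum_congr rfl fun i _ => ?_
      rw [map_mul, ha]
      ring
    have h1 := h a fun j => by
      rw [← hz, hchain, (hz _).2 (hF j), map_zero, mul_zero]
    have h2 : ∑ i, (q * pderiv i p - p * pderiv i q) * a i =
        q * (∑ i, pderiv i p * a i) - p * ∑ i, pderiv i q * a i := by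
      rw [Finset.mul_sum, Finset.mul_sum, ← Finset.sum_sub_distrib]
      exact Finset.sum_congr rfl fun i _ => by ring
    rw [← hz, h2, map_sub, map_mul, map_mul, hchain, hchain] at h1
    have h3 : aeval ξ q * D (aeval ξ p) = aeval ξ p * D (aeval ξ q) := by
      have h4 : algebraMap A E b * (aeval ξ q * D (aeval ξ p) - aeval ξ p * D (aeval ξ q)) = 0 := by
        linear_combination h1
      exact sub_eq_zero.1 ((mul_eq_zero.1 h4).resolve_left hb0)
    have h5 : D (aeval ξ p / aeval ξ q : E) * aeval ξ q + (aeval ξ p / aeval ξ q) * D (aeval ξ q) =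
        D (aeval ξ p) := by
      have h6 := D.leibniz (aeval ξ p / aeval ξ q : E) (aeval ξ q)
      rw [div_mul_cancel₀ _ hq0] at h6
      rw [h6, smul_eq_mul, smul_eq_mul]
      ring
    rw [hD1] at h5
    have h7 : aeval ξ q * aeval ξ q = 0 := by
      have h8 := aux1 (aeval ξ p : E) (aeval ξ q) (D (aeval ξ q)) hq0
      rw [h5] at h8
      linear_combination h3 - h8
    exact hq0 (mul_self_eq_zero.1 h7)
  obtain ⟨m, hm0, hm⟩ := halg
  refine ⟨m, hm0, ?_⟩
  rw [← hz, map_sum]
  have h1 : ∀ r ∈ Finset.range (m.natDegree + 1),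
      (aeval ξ (C (m.coeff r) * p ^ r * q ^ (m.natDegree - r)) : E) =
      (aeval ξ q) ^ m.natDegree * (algebraMap K E (m.coeff r) * (aeval ξ p / aeval ξ q) ^ r) := by
    intro r hr
    have hr' : r ≤ m.natDegree := Nat.lt_succ_iff.1 (Finset.mem_range.1 hr)
    rw [map_mul, map_mul, aeval_C, map_pow, map_pow]
    exact aux2 _ _ _ hq0 _ _ hr'
  rw [Finset.sum_congr rfl h1, ← Finset.mul_sum]
  have h2 := hm
  rw [Polynomial.aeval_eq_sum_range] at h2
  simp only [Algebra.smul_def] at h2
  rw [h2, mul_zero]

end prime

variable [CharZero K] {O : Set K}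

/-- the vanishing ideal -/
noncomputable def van (X : Set (Fin n → K)) : Ideal (MvPolynomial (Fin n) K) where
  carrier := {f | ∀ x ∈ X, eval x f = 0}
  add_mem' := fun hf hg x hx => by rw [map_add, hf x hx, hg x hx, add_zero]
  zero_mem' := fun x _ => map_zero _
  smul_mem' := fun c f hf x hx => by rw [smul_eq_mul, map_mul, hf x hx, mul_zero]

theorem mem_van {X : Set (Fin n → K)} {f : MvPolynomial (Fin n) K} :
    f ∈ van X ↔ ∀ x ∈ X, eval x f = 0 := Iff.rfl

/-- **The tangent criterion.** -/
theorem tangent (hO : Pool.Agent.TH783.CE.Flat O) (X : Set (Fin n → K)) {ι : Type}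
    (F : ι → MvPolynomial (Fin n) K) (hF : ∀ x ∈ X, ∀ j, eval x (F j) = 0)
    (hT : ∀ x ∈ X, ∀ H : MvPolynomial (Fin n) K, (∀ τ, Arc X x τ → dif x H τ = 0) →
      ∀ v, (∀ j, dif x (F j) v = 0) → dif x H v = 0) : FCP O X := by
  classical
  let Z : Ideal (MvPolynomial (Fin n) K) → Set (Fin n → K) := fun P =>
    {x | x ∈ X ∧ ∀ f ∈ P, eval x f = 0}
  have hfin : (van X).minimalPrimes.Finite := Ideal.finite_minimalPrimes_of_isNoetherianRing _ _
  have hle : ∀ P ∈ (van X).minimalPrimes, van X ≤ P := fun P hP => hP.1.2
  have hprime : ∀ P ∈ (van X).minimalPrimes, P.IsPrime := fun P hP => hP.1.1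
  have hcov : ∀ x ∈ X, ∃ P ∈ (van X).minimalPrimes, x ∈ Z P := by
    intro x hx
    by_contra hcon
    push Not at hcon
    have h1 : ∀ P ∈ (van X).minimalPrimes, ∃ f ∈ P, eval x f ≠ 0 := by
      intro P hP
      by_contra hno
      push Not at hno
      exact hcon P hP ⟨hx, hno⟩
    choose! f hf1 hf2 using h1
    have h2 : ∏ P ∈ hfin.toFinset, f P ∈ (van X).radical := by
      rw [← Ideal.sInf_minimalPrimes, Submodule.mem_sInf]
      intro P hP
      exact Ideal.prod_mem P (hfin.mem_toFinset.2 hP) (hf1 P hP)
    obtain ⟨N, hN⟩ := h2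
    have h3 := hN x hx
    rw [map_pow, map_prod] at h3
    have h5 : ∏ P ∈ hfin.toFinset, eval x (f P) = 0 := by
      by_contra hne
      exact pow_ne_zero N hne h3
    obtain ⟨P, hP, h6⟩ := Finset.prod_eq_zero_iff.1 h5
    exact hf2 P (hfin.mem_toFinset.1 hP) h6
  have hsep : ∀ P ∈ (van X).minimalPrimes, ∃ g, g ∉ P ∧
      ∀ Q ∈ (van X).minimalPrimes, Q ≠ P → g ∈ Q := by
    intro P hP
    have h1 : ∀ Q ∈ (van X).minimalPrimes, Q ≠ P → ∃ g ∈ Q, g ∉ P := by
      intro Q hQ hne
      by_contra hno
      push Not at hno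
      exact hne (le_antisymm hno (hP.2 hQ.1 hno))
    choose! g hg1 hg2 using h1
    refine ⟨∏ Q ∈ hfin.toFinset.erase P, g Q, ?_, ?_⟩
    · have := hprime P hP
      intro hmem
      obtain ⟨Q, hQ, hQm⟩ := (Ideal.IsPrime.prod_mem_iff (p := P)).1 hmem
      rw [Finset.mem_erase] at hQ
      exact hg2 Q (hfin.mem_toFinset.1 hQ.2) hQ.1 hQm
    · intro Q hQ hne
      exact Ideal.prod_mem Q (Finset.mem_erase.2 ⟨hne, hfin.mem_toFinset.2 hQ⟩)
        (hg1 Q hQ hne)
  have hvan : ∀ P ∈ (van X).minimalPrimes, ∀ f, (∀ x ∈ Z P, eval x f = 0) → f ∈ P := by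
    intro P hP f hf
    obtain ⟨g, hgP, hg⟩ := hsep P hP
    have h1 : f * g ∈ van X := by
      intro x hx
      obtain ⟨Q, hQ, hxQ⟩ := hcov x hx
      by_cases hne : Q = P
      · subst hne
        rw [map_mul, hf x hxQ, zero_mul]
      · rw [map_mul, hxQ.2 g (hg Q hQ hne), mul_zero]
    have := hprime P hP
    exact ((this.mem_or_mem (hle P hP h1)).resolve_right hgP)
  refine ⟨Z '' (van X).minimalPrimes, hfin.image _, ?_, ?_⟩
  · rintro _ ⟨P, hP, rfl⟩
    have hPp := hprime P hP
    refine ⟨?_, ?_, ?_⟩
    · by_contra hemp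
      rw [Set.not_nonempty_iff_eq_empty] at hemp
      have h1 := hvan P hP 1 (fun x hx => by rw [hemp] at hx; exact absurd hx (Set.notMem_empty x))
      exact hPp.ne_top ((Ideal.eq_top_iff_one P).2 h1)
    · intro g h hgh
      have h1 : g * h ∈ P := hvan P hP _ fun x hx => by
        rw [map_mul]
        exact mul_eq_zero.2 (hgh x hx)
      rcases hPp.mem_or_mem h1 with h2 | h2
      · exact Or.inl fun x hx => hx.2 g h2
      · exact Or.inr fun x hx => hx.2 h h2
    · rintro p q hpq ⟨x₀, hx₀, hqx₀⟩
      have hqP : q ∉ P := fun h => hqx₀ (hx₀.2 q h)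
      obtain ⟨g, hgP, hg⟩ := hsep P hP
      -- points of `X` with `g ≠ 0` are in `Z P`
      have hgZ : ∀ z ∈ X, eval z g ≠ 0 → z ∈ Z P := by
        intro z hz hgz
        obtain ⟨Q, hQ, hzQ⟩ := hcov z hz
        by_cases hne : Q = P
        · rw [← hne]; exact hzQ
        · exact absurd (hzQ.2 g (hg Q hQ hne)) hgz
      have hdif : ∀ x ∈ Z P, eval x g ≠ 0 → eval x q ≠ 0 → ∀ v, (∀ j, dif x (F j) v = 0) →
          eval x q * dif x p v - eval x p * dif x q v = 0 := by
        intro x hx hgx hqx v hv
        have h1 := hT x hx.1 (p - C (eval x p / eval x q) * q) (fun τ hτ => by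
          obtain ⟨y, G, m, hy, hyτ, hm, hX⟩ := hτ
          have hgfin : {s | eval (pt x y G s) g = 0}.Finite := arc_ne x y G m hy hm g hgx
          have h2 := arc_flat hO x y G m hy hm p q hqx ((hX.union hgfin).subset (by
            intro s hs
            by_contra hcon
            rw [Set.mem_union, not_or] at hcon
            apply hs
            intro hqs
            have h3 : pt x y G s ∈ X := by
              by_contra h4
              exact hcon.1 h4
            exact hpq _ (hgZ _ h3 hcon.2) hqs))
          have h3 : (fun i => (y i).coeff m) = τ := funext hyτ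
          rw [h3] at h2
          exact h2) v hv
        rw [dif_sub, dif_mul, dif_C, mul_zero, add_zero, eval_C] at h1
        field_simp at h1
        linear_combination h1
      obtain ⟨m, hm0, hm⟩ := alg_of_dif P F (fun j => hvan P hP _ fun x hx => hF x hx.1 j) p q hqP
        (by
          intro a ha
          have h1 : (∑ i, (q * pderiv i p - p * pderiv i q) * a i) * (g * q) ∈ P := by
            refine hvan P hP _ fun x hx => ?_
            by_cases hgx : eval x g = 0
            · rw [map_mul, map_mul, hgx, zero_mul, mul_zero]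
            by_cases hqx : eval x q = 0
            · rw [map_mul, map_mul, hqx, mul_zero, mul_zero]
            have h2 := hdif x hx hgx hqx (fun i => eval x (a i)) (fun j => by
              have h3 := hx.2 _ (ha j)
              rw [map_sum] at h3
              simpa only [dif, map_mul] using h3)
            have h3 : eval x (∑ i, (q * pderiv i p - p * pderiv i q) * a i) =
                eval x q * dif x p (fun i => eval x (a i)) -
                  eval x p * dif x q (fun i => eval x (a i)) := by
              rw [map_sum, dif, dif, Finset.mul_sum, Finset.mul_sum, ← Finset.sum_sub_distrib]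
              refine Finset.sum_congr rfl fun i _ => ?_
              rw [map_mul, map_sub, map_mul, map_mul]
              ring
            rw [map_mul, h3, h2, zero_mul]
          refine (hPp.mem_or_mem h1).resolve_right fun h2 => ?_
          rcases hPp.mem_or_mem h2 with h3 | h3
          · exact hgP h3
          · exact hqP h3)
      have hval : ∀ x ∈ Z P, eval x q ≠ 0 → m.eval (eval x p / eval x q) = 0 := by
        intro x hx hqx
        have h1 := hx.2 _ hm
        rw [map_sum] at h1
        have h2 : ∀ r ∈ Finset.range (m.natDegree + 1),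
            eval x (C (m.coeff r) * p ^ r * q ^ (m.natDegree - r)) =
            (eval x q) ^ m.natDegree * (m.coeff r * (eval x p / eval x q) ^ r) := by
          intro r hr
          have hr' : r ≤ m.natDegree := Nat.lt_succ_iff.1 (Finset.mem_range.1 hr)
          rw [map_mul, map_mul, eval_C, map_pow, map_pow]
          exact aux2 _ _ _ hqx _ _ hr'
        rw [Finset.sum_congr rfl h2, ← Finset.mul_sum] at h1
        rw [Polynomial.eval_eq_sum_range]
        exact (mul_eq_zero.1 h1).resolve_left (pow_ne_zero _ hqx)
      have hprod : (∏ c ∈ m.roots.toFinset, (p - C c * q)) * q ∈ P := by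
        refine hvan P hP _ fun x hx => ?_
        by_cases hqx : eval x q = 0
        · rw [map_mul, hqx, mul_zero]
        · rw [map_mul, map_prod]
          have h1 : eval x p / eval x q ∈ m.roots.toFinset := by
            rw [Multiset.mem_toFinset, Polynomial.mem_roots hm0]
            exact hval x hx hqx
          rw [Finset.prod_eq_zero h1, zero_mul]
          rw [map_sub, map_mul, eval_C, div_mul_cancel₀ _ hqx, sub_self]
      obtain ⟨c, -, hc⟩ := (Ideal.IsPrime.prod_mem_iff (p := P)).1
        ((hPp.mem_or_mem hprod).resolve_right hqP)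
      refine ⟨c, fun x hx => ?_⟩
      have h1 := hx.2 _ hc
      rw [map_sub, map_mul, eval_C, sub_eq_zero] at h1
      exact h1
  · ext x
    constructor
    · intro hx
      obtain ⟨P, hP, hxP⟩ := hcov x hx
      exact ⟨Z P, ⟨P, hP, rfl⟩, hxP⟩
    · rintro ⟨_, ⟨P, -, rfl⟩, hx⟩
      exact hx.1

end Pool.Agent.T2h62.QS
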