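import Pool.Agent.T2h62.QS.Chain2
import Pool.Agent.T2h62.QS.Tc
import Pool.Agent.R565.PU.Quad

/-!
# Systems of quadratic equations of high rank
-/

set_option autoImplicit false
set_option linter.unusedSectionVars false

namespace Pool.Agent.T2h62.QS

open MvPolynomial Module

variable {K : Type} [Field K] {n k : ℕ}

/-- the matrix of the second derivatives at `0` -/
noncomputable def hess (H : MvPolynomial (Fin n) K) : Matrix (Fin n) (Fin n) K :=
  Matrix.of fun a b => eval 0 (pderiv a (pderiv b H))

theorem hess_add (H G : MvPolynomial (Fin n) K) : hess (H + G) = hess H + hess G := by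
  ext a b
  simp [hess]

theorem hess_C_mul (c : K) (H : MvPolynomial (Fin n) K) : hess (C c * H) = c • hess H := by
  ext a b
  simp [hess, Derivation.leibniz]

theorem hess_sum (q : Fin k → MvPolynomial (Fin n) K) (c : Fin k → K) :
    hess (∑ j, C (c j) * q j) = ∑ j, c j • hess (q j) := by
  ext a b
  simp [hess, Matrix.sum_apply, Derivation.leibniz]

theorem quad_induction (p : MvPolynomial (Fin n) K → Prop) (h1 : ∀ c, p (C c))
    (h2 : ∀ c i, p (C c * X i)) (h3 : ∀ c i j, p (C c * (X i * X j)))
    (hadd : ∀ f g, p f → p g → p (f + g)) (H : MvPolynomial (Fin n) K) (hH : H.totalDegree ≤ 2) :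
    p H := by
  have h0 : p 0 := by
    have := h1 0
    rwa [C_0] at this
  rw [H.as_sum]
  refine Finset.sum_induction _ p hadd h0 fun m hm => ?_
  have hd := Pool.Agent.R565.PU.deg_le_of_mem hH hm
  by_cases hm0 : m = 0
  · subst hm0
    exact h1 _
  obtain ⟨i, m', e1, e2⟩ := Pool.Agent.R565.PU.split_off hm0
  by_cases hm' : m' = 0
  · subst hm'
    have : monomial m (coeff m H) = C (coeff m H) * X i := by
      rw [e1, add_zero, C_mul_X_eq_monomial]
    rw [this]
    exact h2 _ _
  obtain ⟨j, m'', e3, e4⟩ := Pool.Agent.R565.PU.split_off hm'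
  have e5 : m'' = 0 := by
    rw [← Finsupp.degree_eq_zero_iff]
    omega
  subst e5
  have : monomial m (coeff m H) = C (coeff m H) * (X i * X j) := by
    rw [X, X, monomial_mul, C_mul_monomial, mul_one, mul_one, ← add_zero (Finsupp.single j 1), ← e3,
      ← e1]
  rw [this]
  exact h3 _ _ _

theorem hess_C (c : K) : hess (C c : MvPolynomial (Fin n) K) = 0 := by
  ext a b
  simp [hess]

theorem pd_X (a i : Fin n) : pderiv a (X i : MvPolynomial (Fin n) K) = if i = a then 1 else 0 := by
  rw [pderiv_X]
  by_cases h : i = a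
  · subst h; simp
  · rw [Pi.single_eq_of_ne h, if_neg h]

theorem hess_X (c : K) (i : Fin n) : hess (C c * X i : MvPolynomial (Fin n) K) = 0 := by
  rw [hess_C_mul]
  ext a b
  show c * eval 0 (pderiv a (pderiv b (X i))) = 0
  rw [pd_X]
  split_ifs <;> simp

theorem dif_X (x : Fin n → K) (i : Fin n) (v : Fin n → K) : dif x (X i) v = v i := by
  simp only [dif, pd_X]
  rw [Finset.sum_eq_single i]
  · simp
  · intro b _ hb
    rw [if_neg (Ne.symm hb), map_zero, zero_mul]
  · intro h
    exact absurd (Finset.mem_univ i) h

theorem hess_XX (c : K) (i j a b : Fin n) : hess (C c * (X i * X j) : MvPolynomial (Fin n) K) a b =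
    c * ((if i = a then 1 else 0) * (if j = b then 1 else 0) +
      (if j = a then 1 else 0) * (if i = b then 1 else 0)) := by
  rw [hess_C_mul]
  show c * eval 0 (pderiv a (pderiv b (X i * X j))) = _
  congr 1
  rw [pderiv_mul, pd_X, pd_X, map_add, pderiv_mul, pderiv_mul, pd_X, pd_X]
  have h1 : ∀ (P : Prop) [Decidable P], pderiv a (if P then (1 : MvPolynomial (Fin n) K) else 0) = 0 := by
    intro P _
    split_ifs <;> simp
  have h2 : ∀ (P : Prop) [Decidable P], eval (0 : Fin n → K) (if P then (1 : MvPolynomial (Fin n) K) else 0) =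
      if P then 1 else 0 := by
    intro P _
    split_ifs <;> simp
  rw [h1, h1]
  simp only [map_add, map_mul, h2, zero_mul, mul_zero, zero_add, add_zero]
  ring

theorem hess_symm (H : MvPolynomial (Fin n) K) (hH : H.totalDegree ≤ 2) (a b : Fin n) :
    hess H a b = hess H b a := by
  refine quad_induction (fun H => hess H a b = hess H b a) ?_ ?_ ?_ ?_ H hH
  · intro c
    rw [hess_C]; rfl
  · intro c i
    rw [hess_X]; rfl
  · intro c i j
    rw [hess_XX, hess_XX]
    ring
  · intro f g hf hg
    rw [hess_add, Matrix.add_apply, Matrix.add_apply, hf, hg]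

theorem taylor2 [CharZero K] (H : MvPolynomial (Fin n) K) (hH : H.totalDegree ≤ 2)
    (x v : Fin n → K) : eval (x + v) H = eval x H + dif x H v +
      2⁻¹ * ∑ a, ∑ b, hess H a b * v a * v b := by
  refine quad_induction (fun H => eval (x + v) H = eval x H + dif x H v +
      2⁻¹ * ∑ a, ∑ b, hess H a b * v a * v b) ?_ ?_ ?_ ?_ H hH
  · intro c
    rw [dif_C, hess_C]
    simp
  · intro c i
    rw [dif_mul, dif_C, hess_X, dif_X]
    simp [mul_add]
  · intro c i j
    have h1 : ∑ a, ∑ b, hess (C c * (X i * X j) : MvPolynomial (Fin n) K) a b * v a * v b =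
        2 * (c * (v i * v j)) := by
      simp only [hess_XX]
      have h2 : ∀ a b : Fin n, c * ((if i = a then 1 else 0) * (if j = b then 1 else 0) +
          (if j = a then 1 else 0) * (if i = b then 1 else 0)) * v a * v b =
          (if i = a then (if j = b then c * v a * v b else 0) else 0) +
          (if j = a then (if i = b then c * v a * v b else 0) else 0) := by
        intro a b
        split_ifs <;> ring
      simp only [h2, Finset.sum_add_distrib]
      simp
      ring
    rw [h1, dif_mul, dif_mul, dif_C, dif_X, dif_X]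
    simp only [map_mul, eval_C, eval_X, Pi.add_apply]
    field_simp
    ring
  · intro f g hf hg
    rw [map_add, hf, hg, map_add, dif_add, hess_add]
    simp only [Matrix.add_apply, add_mul, Finset.sum_add_distrib, mul_add]
    ring

/-- the polar forms of the leading forms -/
noncomputable def polar (q : Fin k → MvPolynomial (Fin n) K) :
    (Fin n → K) →ₗ[K] (Fin n → K) →ₗ[K] (Fin k → K) :=
  LinearMap.mk₂ K (fun v w j => 2⁻¹ * ∑ a, ∑ b, hess (q j) a b * v a * w b)
    (fun v v' w => by
      funext j
      simp only [Pi.add_apply, mul_add, add_mul, Finset.sum_add_distrib])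
    (fun c v w => by
      funext j
      simp only [Pi.smul_apply, smul_eq_mul, Finset.mul_sum]
      exact Finset.sum_congr rfl fun a _ => Finset.sum_congr rfl fun b _ => by ring)
    (fun v w w' => by
      funext j
      simp only [Pi.add_apply, mul_add, Finset.sum_add_distrib])
    (fun c v w => by
      funext j
      simp only [Pi.smul_apply, smul_eq_mul, Finset.mul_sum]
      exact Finset.sum_congr rfl fun a _ => Finset.sum_congr rfl fun b _ => by ring)

theorem polar_apply (q : Fin k → MvPolynomial (Fin n) K) (v w : Fin n → K) (j : Fin k) :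
    polar q v w j = 2⁻¹ * ∑ a, ∑ b, hess (q j) a b * v a * w b := rfl

theorem polar_symm (q : Fin k → MvPolynomial (Fin n) K) (hq : ∀ j, (q j).totalDegree ≤ 2)
    (v w : Fin n → K) : polar q v w = polar q w v := by
  funext j
  rw [polar_apply, polar_apply, Finset.sum_comm]
  refine congrArg (fun t => 2⁻¹ * t) (Finset.sum_congr rfl fun a _ =>
    Finset.sum_congr rfl fun b _ => ?_)
  rw [hess_symm (q j) (hq j) b a]
  ring

/-- the differential of the system -/
noncomputable def lin (q : Fin k → MvPolynomial (Fin n) K) (x : Fin n → K) :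
    (Fin n → K) →ₗ[K] (Fin k → K) where
  toFun v := fun j => dif x (q j) v
  map_add' v w := by
    funext j
    exact dif_vadd _ _ _ _
  map_smul' c v := by
    funext j
    exact dif_smul _ _ _ _

theorem rank_le_rk [CharZero K] (q : Fin k → MvPolynomial (Fin n) K) (φ : Dual K (Fin k → K)) :
    (hess (∑ j, C (φ (Pi.single j 1)) * q j)).rank ≤ rk (polar q) φ := by
  let e : Dual K (Fin n → K) →ₗ[K] (Fin n → K) :=
    { toFun := fun f i => f (Pi.single i 1)
      map_add' := fun f g => rfl
      map_smul' := fun c f => rfl }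
  let M := hess (∑ j, C (φ (Pi.single j 1)) * q j)
  have h1 : ∀ v, (M.transpose).mulVecLin v = e ((polar q).compr₂ φ ((2 : K) • v)) := by
    intro v
    funext b
    show M.transpose.mulVec v b = φ (polar q ((2 : K) • v) (Pi.single b 1))
    have h2 : ∀ z : Fin k → K, φ z = ∑ j, z j * φ (Pi.single j 1) := by
      intro z
      rw [LinearMap.pi_apply_eq_sum_univ φ z]
      refine Finset.sum_congr rfl fun j _ => ?_
      rw [smul_eq_mul]
      congr 2
      funext i
      by_cases h : i = j
      · subst h; simp
      · simp [h, Ne.symm h]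
    rw [h2]
    simp only [polar_apply, Matrix.mulVec, dotProduct, Matrix.transpose_apply, M, hess_sum,
      Matrix.sum_apply, Matrix.smul_apply, smul_eq_mul, Pi.smul_apply, Pi.single_apply,
      mul_ite, mul_one, mul_zero, Finset.sum_ite_eq', Finset.mem_univ, if_true, Finset.sum_mul,
      Finset.mul_sum]
    rw [Finset.sum_comm]
    refine Finset.sum_congr rfl fun j _ => Finset.sum_congr rfl fun a _ => ?_
    field_simp
  have h2 : LinearMap.range (M.transpose).mulVecLin ≤
      (LinearMap.range ((polar q).compr₂ φ)).map e := by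
    rintro _ ⟨v, rfl⟩
    exact ⟨_, ⟨(2 : K) • v, rfl⟩, (h1 v).symm⟩
  have h3 : M.rank = finrank K (LinearMap.range (M.transpose).mulVecLin) := by
    rw [← Matrix.rank_transpose]
    rfl
  show M.rank ≤ _
  rw [h3]
  exact (Submodule.finrank_mono h2).trans (Submodule.finrank_map_le _ _)

end Pool.Agent.T2h62.QS
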