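import Pool.Agent.T2h62.QS.Sys

/-!
# Nonsingular solutions of systems of quadratic equations of high rank
-/

set_option autoImplicit false
set_option linter.unusedSectionVars false

namespace Pool.Agent.T2h62.QS

open MvPolynomial Module

variable {K : Type} [Field K] {n k : ℕ}

/-- The nonsingular solutions of the system `q = 0`: the gradients are linearly independent. -/
def NS (q : Fin k → MvPolynomial (Fin n) K) : Set (Fin n → K) :=
  {x | (∀ j, eval x (q j) = 0) ∧ LinearIndependent K (fun j i => eval x (pderiv i (q j)))}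

/-- Every nontrivial linear combination of the leading forms has rank greater than `k ^ 2 + k`. -/
def HighRank (q : Fin k → MvPolynomial (Fin n) K) : Prop :=
  ∀ c : Fin k → K, c ≠ 0 → k ^ 2 + k < (hess (∑ j, C (c j) * q j)).rank

/-- All tangent vectors are sums of directions of rational arcs. -/
def CurveGen (X : Set (Fin n → K)) : Prop :=
  ∃ (r : ℕ) (F : Fin r → MvPolynomial (Fin n) K), (∀ x ∈ X, ∀ j, eval x (F j) = 0) ∧
    ∀ x ∈ X, ∀ v, (∀ j, dif x (F j) v = 0) → v ∈ Submodule.span K {τ | Arc X x τ}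

theorem CurveGen.fcp [CharZero K] {O : Set K} (hO : Pool.Agent.TH783.CE.Flat O)
    {X : Set (Fin n → K)} (hX : CurveGen X) : Pool.Agent.Y718.FQ.FCP O X := by
  obtain ⟨r, F, hF, hT⟩ := hX
  refine tangent hO X F hF fun x hx H hH v hv => ?_
  refine Submodule.span_induction (p := fun v _ => dif x H v = 0) (fun τ hτ => hH τ hτ) ?_ ?_ ?_
    (hT x hx v hv)
  · simp [dif]
  · intro v w _ _ hv hw
    rw [dif_vadd, hv, hw, add_zero]
  · intro c v _ hv
    rw [dif_smul, hv, mul_zero]

theorem lin_surj (q : Fin k → MvPolynomial (Fin n) K) (x : Fin n → K)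
    (h : LinearIndependent K (fun j i => eval x (pderiv i (q j)))) (z : Fin k → K) :
    ∃ v, lin q x v = z := by
  let J : Matrix (Fin k) (Fin n) K := Matrix.of fun j i => eval x (pderiv i (q j))
  have h1 : J.rank = k := by
    have := LinearIndependent.rank_matrix (M := J) h
    rwa [Fintype.card_fin] at this
  have h2 : LinearMap.range J.mulVecLin = ⊤ := by
    apply Submodule.eq_top_of_finrank_eq
    rw [finrank_fin_fun]
    exact h1
  have h3 : z ∈ LinearMap.range J.mulVecLin := by rw [h2]; trivial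
  obtain ⟨v, hv⟩ := h3
  exact ⟨v, hv⟩

variable [CharZero K]

theorem cofinite_ns (q : Fin k → MvPolynomial (Fin n) K) (x : Fin n → K)
    (h : LinearIndependent K (fun j i => eval x (pderiv i (q j)))) :
    ∃ g : MvPolynomial (Fin n) K, eval x g ≠ 0 ∧ ∀ z, eval z g ≠ 0 →
      LinearIndependent K (fun j i => eval z (pderiv i (q j))) := by
  classical
  choose v hv using fun l : Fin k => lin_surj q x h (Pi.single l 1)
  let M : Matrix (Fin k) (Fin k) (MvPolynomial (Fin n) K) :=
    Matrix.of fun j l => ∑ i, pderiv i (q j) * C (v l i)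
  have hM : ∀ z, eval z M.det = (Matrix.of fun j l => dif z (q j) (v l)).det := by
    intro z
    rw [RingHom.map_det]
    congr 1
    ext j l
    simp [M, dif]
  refine ⟨M.det, ?_, fun z hz => ?_⟩
  · rw [hM]
    have h1 : (Matrix.of fun j l => dif x (q j) (v l)) = (1 : Matrix (Fin k) (Fin k) K) := by
      ext j l
      have := congrFun (hv l) j
      show dif x (q j) (v l) = _
      rw [show dif x (q j) (v l) = lin q x (v l) j from rfl, this, Matrix.one_apply,
        Pi.single_apply]
    rw [h1, Matrix.det_one]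
    exact one_ne_zero
  · rw [hM] at hz
    rw [Fintype.linearIndependent_iff]
    intro c hc
    have h1 : Matrix.vecMul c (Matrix.of fun j l => dif z (q j) (v l)) = 0 := by
      funext l
      simp only [Matrix.vecMul, dotProduct, Matrix.of_apply, dif, Pi.zero_apply, Finset.mul_sum]
      rw [Finset.sum_comm]
      refine Finset.sum_eq_zero fun i _ => ?_
      have h2 := congrFun hc i
      simp only [Finset.sum_apply, Pi.smul_apply, smul_eq_mul, Pi.zero_apply] at h2
      have h3 : ∀ j, c j * (eval z (pderiv i (q j)) * v l i) =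
          (c j * eval z (pderiv i (q j))) * v l i := fun j => by ring
      simp only [h3]
      rw [← Finset.sum_mul, h2, zero_mul]
    exact fun j => congrFun (Matrix.eq_zero_of_vecMul_eq_zero hz h1) j

theorem dim_ker {q : Fin k → MvPolynomial (Fin n) K} {x : Fin n → K}
    (h : LinearIndependent K (fun j i => eval x (pderiv i (q j)))) :
    finrank K ((Fin n → K) ⧸ LinearMap.ker (lin q x)) = k := by
  have h1 := (lin q x).quotKerEquivRange.finrank_eq
  have h2 : LinearMap.range (lin q x) = ⊤ := LinearMap.range_eq_top.2 (lin_surj q x h)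
  rw [h1, h2, finrank_top, finrank_fin_fun]

theorem high_phi {q : Fin k → MvPolynomial (Fin n) K} (hr : HighRank q) (φ : Dual K (Fin k → K))
    (hφ : φ ≠ 0) : k ^ 2 + k < rk (polar q) φ := by
  refine (hr (fun j => φ (Pi.single j 1)) ?_).trans_le (rank_le_rk q φ)
  intro h0
  apply hφ
  apply LinearMap.pi_ext'
  intro j
  ext
  simpa using congrFun h0 j

/-- the good directions exist -/
theorem exists_good_dir {q : Fin k → MvPolynomial (Fin n) K} (hk : 0 < k)
    (hq : ∀ j, (q j).totalDegree ≤ 2) (hr : HighRank q) {x : Fin n → K}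
    (h : LinearIndependent K (fun j i => eval x (pderiv i (q j)))) :
    ∃ w, Good (polar q) (LinearMap.ker (lin q x)) ⊥ w := by
  have hbot : finrank K ((Fin k → K) ⧸ (⊥ : Submodule K (Fin k → K))) = k := by
    have := Submodule.finrank_quotient_add_finrank (⊥ : Submodule K (Fin k → K))
    rw [finrank_bot, finrank_fin_fun, add_zero] at this
    exact this
  refine exists_good (polar q) (polar_symm q hq) _ _ (by rw [hbot]; exact hk) fun φ hφ _ => ?_
  have h1 := high_phi hr φ hφ
  rw [dim_ker h, hbot]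
  nlinarith

/-- the arc in a good direction -/
theorem arc_of_good {q : Fin k → MvPolynomial (Fin n) K} (hq : ∀ j, (q j).totalDegree ≤ 2)
    (hr : HighRank q) {x : Fin n → K} (hx : x ∈ NS q) {w : Fin n → K}
    (hw : Good (polar q) (LinearMap.ker (lin q x)) ⊥ w) :
    ∃ (y : Fin n → Polynomial K) (G : Polynomial K) (m : ℕ) (κ : K), κ ≠ 0 ∧
      (∀ i, (y i).natDegree ≤ m) ∧ (∀ i, (y i).coeff m = κ * w i) ∧ m < G.natDegree ∧
      (∀ s, lin q x (ev y s) = -polar q w w) ∧
      ∀ s, G.eval s ≠ 0 → ∀ j, eval (pt x y G s) (q j) = 0 := by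
  obtain ⟨hx0, hx1⟩ := hx
  have hk : 0 < k := by
    rcases Nat.eq_zero_or_pos k with h0 | h0
    · exfalso
      subst h0
      apply hw.2.1
      rw [Submodule.mem_bot]
      exact Subsingleton.elim _ _
    · exact h0
  obtain ⟨r, hkr⟩ : ∃ r, k = r + 1 := ⟨k - 1, by omega⟩
  have hbot : finrank K ((Fin k → K) ⧸ (⊥ : Submodule K (Fin k → K))) = r + 1 := by
    have := Submodule.finrank_quotient_add_finrank (⊥ : Submodule K (Fin k → K))
    rw [finrank_bot, finrank_fin_fun, add_zero] at this
    rw [this, hkr]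
  obtain ⟨v, hv⟩ := lin_surj q x hx1 (polar q w w)
  obtain ⟨y, κ, hκ, hdeg, hco, hyU, hyE⟩ := chain (polar q) (polar_symm q hq) r
    (LinearMap.ker (lin q x)) ⊥ hbot (fun φ hφ _ => by
      have h1 := high_phi hr φ hφ
      rw [dim_ker hx1]
      have h2 : k ^ 2 + k = 2 * k + (r + 1) * r := by rw [hkr]; ring
      omega) w hw v
  obtain ⟨ψ, hψ⟩ : ∃ ψ : Dual K (Fin k → K), ψ (polar q w w) = 1 := by
    obtain ⟨ψ, h1, -⟩ := Submodule.exists_le_ker_of_notMem hw.2.1
    refine ⟨(ψ (polar q w w))⁻¹ • ψ, ?_⟩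
    rw [LinearMap.smul_apply, smul_eq_mul, inv_mul_cancel₀ h1]
  obtain ⟨G, hG, -, hGc⟩ := form_poly ((polar q).compr₂ ψ) y (2 ^ r) hdeg
  have hGc' : G.coeff (2 * 2 ^ r) = κ ^ 2 := by
    rw [hGc]
    have : (fun i => (y i).coeff (2 ^ r)) = κ • w := by
      funext i
      rw [hco i]
      rfl
    rw [this, LinearMap.compr₂_apply]
    simp only [map_smul, LinearMap.smul_apply, hψ, smul_eq_mul]
    ring
  have hlin : ∀ s, lin q x (ev y s) = -polar q w w := by
    intro s
    have h1 := hyU s
    rw [LinearMap.mem_ker, map_add, hv] at h1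
    exact eq_neg_of_add_eq_zero_left h1
  refine ⟨y, G, 2 ^ r, κ, hκ, hdeg, hco, ?_, hlin, fun s hs j => ?_⟩
  · have h1 : G.coeff (2 * 2 ^ r) ≠ 0 := by
      rw [hGc']
      exact pow_ne_zero 2 hκ
    have h2 := Polynomial.le_natDegree_of_ne_zero h1
    have h3 : 0 < 2 ^ r := Nat.pos_of_ne_zero (by positivity)
    omega
  · have h1 : pt x y G s = x + (G.eval s)⁻¹ • ev y s := by
      funext i
      show x i + (y i).eval s / G.eval s = x i + (G.eval s)⁻¹ * (y i).eval s
      rw [div_eq_inv_mul]
    have h2 : polar q (ev y s) (ev y s) = G.eval s • polar q w w := by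
      have h3 := hyE s
      rw [bot_sup_eq, Submodule.mem_span_singleton] at h3
      obtain ⟨c, hc⟩ := h3
      rw [← hc]
      congr 1
      rw [hG s, LinearMap.compr₂_apply, ← hc, map_smul, hψ, smul_eq_mul, mul_one]
    have h3 : (2⁻¹ * ∑ a, ∑ b, hess (q j) a b * ((G.eval s)⁻¹ • ev y s) a *
        ((G.eval s)⁻¹ • ev y s) b) = (G.eval s)⁻¹ * polar q w w j := by
      rw [← polar_apply q ((G.eval s)⁻¹ • ev y s) ((G.eval s)⁻¹ • ev y s) j]
      simp only [map_smul, LinearMap.smul_apply, h2, Pi.smul_apply, smul_eq_mul]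
      field_simp
    have h4 : dif x (q j) ((G.eval s)⁻¹ • ev y s) = -((G.eval s)⁻¹ * polar q w w j) := by
      rw [dif_smul]
      have h5 := congrFun (hlin s) j
      have h6 : dif x (q j) (ev y s) = -polar q w w j := h5
      rw [h6]
      ring
    rw [h1, taylor2 (q j) (hq j), h3, h4, hx0 j]
    ring

theorem ns_arc {q : Fin k → MvPolynomial (Fin n) K} {x : Fin n → K} (hx : x ∈ NS q)
    {y : Fin n → Polynomial K} {G : Polynomial K} {m : ℕ} (hy : ∀ i, (y i).natDegree ≤ m)
    (hm : m < G.natDegree) (h : ∀ s, G.eval s ≠ 0 → ∀ j, eval (pt x y G s) (q j) = 0) :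
    {s | pt x y G s ∉ NS q}.Finite := by
  obtain ⟨g, hg, hgz⟩ := cofinite_ns q x hx.2
  have hG0 : G ≠ 0 := by
    rintro rfl
    simp at hm
  refine ((Polynomial.finite_setOfPred_isRoot hG0).union (arc_ne x y G m hy hm g hg)).subset ?_
  intro s hs
  by_contra hcon
  rw [Set.mem_union, not_or] at hcon
  exact hs ⟨h s hcon.1, hgz _ hcon.2⟩

/-- **The nonsingular solutions of a system of high rank are generated by curves.** -/
theorem curveGen_ns (q : Fin k → MvPolynomial (Fin n) K) (hq : ∀ j, (q j).totalDegree ≤ 2)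
    (hr : HighRank q) : CurveGen (NS q) := by
  refine ⟨k, q, fun x hx => hx.1, fun x hx v hv => ?_⟩
  rcases Nat.eq_zero_or_pos k with h0 | hk
  · subst h0
    apply Submodule.subset_span
    refine ⟨fun i => Polynomial.C (v i), Polynomial.X, 0, fun i => by simp, fun i => by simp,
      by simp, ?_⟩
    refine ns_arc hx (m := 0) (fun i => by simp) (by simp) fun s _ j => Fin.elim0 j
  obtain ⟨w, hw⟩ := exists_good_dir hk hq hr hx.2
  have hvk : v ∈ LinearMap.ker (lin q x) := by
    rw [LinearMap.mem_ker]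
    funext j
    exact hv j
  obtain ⟨t, ht⟩ := ((hw.open (polar q) v hvk).insert 0).exists_notMem
  have ht0 : t ≠ 0 := fun h => ht (Set.mem_insert_iff.2 (Or.inl h))
  have hg : Good (polar q) (LinearMap.ker (lin q x)) ⊥ (w + t • v) := by
    by_contra h
    exact ht (Set.mem_insert_iff.2 (Or.inr h))
  have key : ∀ w', Good (polar q) (LinearMap.ker (lin q x)) ⊥ w' →
      w' ∈ Submodule.span K {τ | Arc (NS q) x τ} := by
    intro w' hw'
    obtain ⟨y, G, m, κ, hκ, hy, hc, hm, -, hz⟩ := arc_of_good hq hr hx hw'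
    have h1 : κ • w' ∈ Submodule.span K {τ | Arc (NS q) x τ} :=
      Submodule.subset_span ⟨y, G, m, hy, hc, hm, ns_arc hx hy hm hz⟩
    have h2 : w' = κ⁻¹ • κ • w' := by rw [smul_smul, inv_mul_cancel₀ hκ, one_smul]
    rw [h2]
    exact Submodule.smul_mem _ _ h1
  have h3 : v = t⁻¹ • ((w + t • v) - w) := by
    rw [add_sub_cancel_left, smul_smul, inv_mul_cancel₀ ht0, one_smul]
  rw [h3]
  exact Submodule.smul_mem _ _ (Submodule.sub_mem _ (key _ hg) (key _ hw))

/-- If a coordinate of all nonsingular solutions is in a flat set then there are no nonsingular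
solutions. -/
theorem no_ns {O : Set K} (hO : Pool.Agent.TH783.CE.Flat O) (q : Fin k → MvPolynomial (Fin n) K)
    (hq : ∀ j, (q j).totalDegree ≤ 2) (hr : HighRank q) (i₀ : Fin n)
    (h : ∀ x ∈ NS q, x i₀ ∈ O) : NS q = ∅ := by
  rw [Set.eq_empty_iff_forall_notMem]
  intro x hx
  -- the coordinate is constant along the arcs
  have hcon : ∀ (y : Fin n → Polynomial K) (G : Polynomial K) (m : ℕ),
      (∀ i, (y i).natDegree ≤ m) → m < G.natDegree → {s | pt x y G s ∉ NS q}.Finite →
      (y i₀).coeff m = 0 ∧ y i₀ = 0 := by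
    intro y G m hy hm hX
    have h1 := arc_flat hO x y G m hy hm (X i₀) 1 (by simp) (hX.subset (by
      intro s hs
      by_contra hcon
      apply hs
      intro _
      have h3 : pt x y G s ∈ NS q := by
        by_contra h4
        exact hcon h4
      have h4 := h _ h3
      simpa using h4))
    rw [dif_sub, dif_mul, dif_C, dif_X] at h1
    have h2 : dif x (1 : MvPolynomial (Fin n) K) (fun i => (y i).coeff m) = 0 := by
      rw [← C_1, dif_C]
    rw [h2] at h1
    have h3 : (y i₀).coeff m = 0 := by simpa using h1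
    refine ⟨h3, ?_⟩
    -- the coordinate function is constant
    by_contra hne
    have hG0 : G ≠ 0 := by
      rintro rfl
      simp at hm
    let e : Polynomial K := ∏ a ∈ hX.toFinset, (Polynomial.X - Polynomial.C a)
    have he0 : e ≠ 0 := Finset.prod_ne_zero_iff.2 fun a _ => Polynomial.X_sub_C_ne_zero a
    obtain ⟨c, hc⟩ := hO (G * e) ((Polynomial.C (x i₀) * G + y i₀) * e) (mul_ne_zero hG0 he0) (by
      intro s hs
      rw [Polynomial.eval_mul] at hs
      have hGs : G.eval s ≠ 0 := left_ne_zero_of_mul hs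
      have hes : e.eval s ≠ 0 := right_ne_zero_of_mul hs
      have h4 : pt x y G s ∈ NS q := by
        by_contra hno
        apply hes
        rw [Polynomial.eval_prod]
        refine Finset.prod_eq_zero (hX.mem_toFinset.2 hno) (by simp)
      have h5 := h _ h4
      have h6 : ((Polynomial.C (x i₀) * G + y i₀) * e).eval s / (G * e).eval s = pt x y G s i₀ := by
        show _ = x i₀ + (y i₀).eval s / G.eval s
        simp only [Polynomial.eval_mul, Polynomial.eval_add, Polynomial.eval_C]
        field_simp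
      rw [h6]
      exact h5)
    have h4 : Polynomial.C (x i₀) * G + y i₀ = Polynomial.C c * G := by
      rw [← mul_assoc] at hc
      exact mul_right_cancel₀ he0 hc
    have h5 : y i₀ = Polynomial.C (c - x i₀) * G := by
      rw [map_sub]
      linear_combination h4
    have h6 : c - x i₀ ≠ 0 := by
      intro h0
      rw [h0, Polynomial.C_0, zero_mul] at h5
      exact hne h5
    have h7 : (y i₀).natDegree = G.natDegree := by
      rw [h5, Polynomial.natDegree_C_mul h6]
    have h8 := hy i₀
    omega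
  rcases Nat.eq_zero_or_pos k with h0 | hk
  · subst h0
    have h1 := (hcon (fun _ => 1) Polynomial.X 0 (fun i => by simp) (by simp)
      (ns_arc hx (m := 0) (fun i => by simp) (by simp) fun s _ j => Fin.elim0 j)).1
    simp at h1
  obtain ⟨w₀, hw₀⟩ := exists_good_dir hk hq hr hx.2
  -- the coordinate vanishes on the tangent space
  have hker : ∀ w, Good (polar q) (LinearMap.ker (lin q x)) ⊥ w → w i₀ = 0 := by
    intro w hw
    obtain ⟨y, G, m, κ, hκ, hy, hc, hm, -, hz⟩ := arc_of_good hq hr hx hw
    have h1 := (hcon y G m hy hm (ns_arc hx hy hm hz)).1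
    rw [hc] at h1
    exact (mul_eq_zero.1 h1).resolve_left hκ
  have hker2 : ∀ v ∈ LinearMap.ker (lin q x), v i₀ = 0 := by
    intro v hv
    obtain ⟨t, ht⟩ := ((hw₀.open (polar q) v hv).insert 0).exists_notMem
    have ht0 : t ≠ 0 := fun h => ht (Set.mem_insert_iff.2 (Or.inl h))
    have hg : Good (polar q) (LinearMap.ker (lin q x)) ⊥ (w₀ + t • v) := by
      by_contra h
      exact ht (Set.mem_insert_iff.2 (Or.inr h))
    have h1 := hker _ hg
    rw [Pi.add_apply, hker _ hw₀, zero_add, Pi.smul_apply, smul_eq_mul] at h1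
    exact (mul_eq_zero.1 h1).resolve_left ht0
  -- so it is a combination of the differentials
  obtain ⟨c, hc⟩ : ∃ c : Dual K (Fin k → K), ∀ v : Fin n → K, v i₀ = c (lin q x v) := by
    obtain ⟨R, hR⟩ := (lin q x).exists_rightInverse_of_surjective
      (LinearMap.range_eq_top.2 (lin_surj q x hx.2))
    refine ⟨(LinearMap.proj i₀) ∘ₗ R, fun v => ?_⟩
    have h1 : v - R (lin q x v) ∈ LinearMap.ker (lin q x) := by
      rw [LinearMap.mem_ker, map_sub]
      have := LinearMap.congr_fun hR (lin q x v)
      rw [LinearMap.comp_apply, LinearMap.id_apply] at this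
      rw [this, sub_self]
    have h2 := hker2 _ h1
    rw [Pi.sub_apply, sub_eq_zero] at h2
    exact h2
  have hc0 : c ≠ 0 := by
    rintro rfl
    have := hc (Pi.single i₀ 1)
    simp at this
  -- a good direction with `c (B w w) ≠ 0`
  obtain ⟨v, hv, hvc⟩ : ∃ v ∈ LinearMap.ker (lin q x), polar q v v ∉ LinearMap.ker c := by
    by_contra hno
    push Not at hno
    have h1 : ∀ u ∈ LinearMap.ker (lin q x), ∀ v ∈ LinearMap.ker (lin q x),
        ((polar q).compr₂ c) u v = 0 := by
      intro u hu v hv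
      have h2 : c (polar q (u + v) (u + v)) = 0 := hno _ (Submodule.add_mem _ hu hv)
      have h3 : c (polar q u u) = 0 := hno _ hu
      have h4 : c (polar q v v) = 0 := hno _ hv
      simp only [map_add, LinearMap.add_apply, h3, h4, polar_symm q hq v u] at h2
      have h5 : 2 * c (polar q u v) = 0 := by linear_combination h2
      rw [LinearMap.compr₂_apply]
      exact (mul_eq_zero.1 h5).resolve_left two_ne_zero
    have h2 := rank_le ((polar q).compr₂ c) _ _ h1
    have h3 := high_phi hr c hc0
    rw [dim_ker hx.2] at h2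
    unfold rk at h3
    nlinarith
  obtain ⟨t, ht⟩ := ((hw₀.open (polar q) v hv).union
    (sq_cofinite (polar q) (LinearMap.ker c) w₀ v (Or.inr hvc))).exists_notMem
  rw [Set.mem_union, not_or] at ht
  have hg : Good (polar q) (LinearMap.ker (lin q x)) ⊥ (w₀ + t • v) := by
    by_contra h
    exact ht.1 h
  obtain ⟨y, G, m, κ, hκ, hy, hco, hm, hlin, hz⟩ := arc_of_good hq hr hx hg
  have h1 := (hcon y G m hy hm (ns_arc hx hy hm hz)).2
  have h2 := hc (ev y 0)
  rw [hlin, map_neg] at h2
  apply ht.2
  show c (polar q (w₀ + t • v) (w₀ + t • v)) = 0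
  have h3 : ev y 0 i₀ = 0 := by
    show (y i₀).eval 0 = 0
    rw [h1, Polynomial.eval_zero]
  rw [h3] at h2
  linear_combination h2

end Pool.Agent.T2h62.QS
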