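import Pool.Agent.T2h62.QS.Fin
import Pool.Agent.TH783.CE.NF

/-!
# Systems of quadratic equations: definitions for the results
-/

set_option autoImplicit false

namespace Pool.Agent.T2h62.QSys

open MvPolynomial

variable {K : Type} [Field K] {k n : ℕ}

/-- the solutions of the system `q = 0` -/
def Sol (q : Fin k → MvPolynomial (Fin n) K) : Set (Fin n → K) := {x | ∀ j, eval x (q j) = 0}

/-- the nonsingular solutions of the system `q = 0`: the gradients are linearly independent -/
def NonsingularSol (q : Fin k → MvPolynomial (Fin n) K) : Set (Fin n → K) :=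
  {x | (∀ j, eval x (q j) = 0) ∧ LinearIndependent K (fun j i => eval x (pderiv i (q j)))}

/-- A system of `k` polynomials of degree at most two such that every nontrivial `K`-linear
combination of the leading quadratic forms has rank greater than `k (k + 1)`; the rank is the rank of
the matrix of the second partial derivatives. -/
def HighRank (q : Fin k → MvPolynomial (Fin n) K) : Prop :=
  (∀ j, (q j).totalDegree ≤ 2) ∧ ∀ c : Fin k → K, c ≠ 0 → k * (k + 1) <
    (Matrix.of fun i i' => eval 0 (pderiv i (pderiv i' (∑ j, C (c j) * q j)))).rank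

/-- A system of polynomials of degree at most two without singularities at infinity: at every
nontrivial common zero of the leading quadratic forms over the algebraic closure their gradients are
linearly independent. -/
def NonsingularAtInfinity (q : Fin k → MvPolynomial (Fin n) K) : Prop :=
  (∀ j, (q j).totalDegree ≤ 2) ∧ ∀ y : Fin n → AlgebraicClosure K, y ≠ 0 →
    (∀ j, aeval y (homogeneousComponent 2 (q j)) = 0) →
    LinearIndependent (AlgebraicClosure K)
      (fun j i => aeval y (pderiv i (homogeneousComponent 2 (q j))))

theorem highRank_iff {q : Fin k → MvPolynomial (Fin n) K} (h : HighRank q) :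
    Pool.Agent.T2h62.QS.HighRank q := fun c hc => by
  have := h.2 c hc
  rw [pow_two, ← Nat.mul_succ]
  exact this

theorem highRank_inf [CharZero K] {q : Fin k → MvPolynomial (Fin n) K}
    (hq : NonsingularAtInfinity q) (hn : k * (k + 2) ≤ n) : HighRank q := by
  refine ⟨hq.1, fun c hc => ?_⟩
  have h1 := Pool.Agent.T2h62.QS.highRank_of_smooth q hq.1 hq.2 (by nlinarith) c hc
  have h2 : k ^ 2 + k = k * (k + 1) := by ring
  rw [h2] at h1
  exact h1

theorem sing_finite {q : Fin k → MvPolynomial (Fin n) K} (hq : NonsingularAtInfinity q) :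
    {x | x ∈ Sol q ∧ x ∉ NonsingularSol q}.Finite :=
  Pool.Agent.T2h62.QS.finite_sing q hq.1 hq.2

theorem no_ns [CharZero K] {O : Set K} (hO : Pool.Agent.TH783.CE.Flat O)
    {q : Fin k → MvPolynomial (Fin n) K} (hq : HighRank q) (i₀ : Fin n)
    (h : ∀ x ∈ NonsingularSol q, x i₀ ∈ O) : NonsingularSol q = ∅ :=
  Pool.Agent.T2h62.QS.no_ns hO q hq.1 (highRank_iff hq) i₀ h

end Pool.Agent.T2h62.QSys
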